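import Pool.Agent.Lib.MP_9dcace_lb.T7

/-!
MP_9dcace_co, lower bound: a realization of a vertex set which contains a strip of quadrilateral faces.
-/

set_option autoImplicit false

namespace Pool.Agent.QLB

theorem root6_eight {N : ℝ} (hN : 0 ≤ N) : root6 (8 * N ^ 3) = Real.sqrt (2 * N) := by
  have h1 : root6 (8 * N ^ 3) ^ 6 = 8 * N ^ 3 := root6_pow (by positivity)
  have h2 : Real.sqrt (2 * N) ^ 6 = 8 * N ^ 3 := by
    have h3 : Real.sqrt (2 * N) ^ 2 = 2 * N := Real.sq_sqrt (by linarith)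
    calc Real.sqrt (2 * N) ^ 6 = (Real.sqrt (2 * N) ^ 2) ^ 3 := by ring
      _ = 8 * N ^ 3 := by rw [h3]; ring
  exact pow_left_injective₀' (root6_nonneg (by positivity)) (Real.sqrt_nonneg _) (h1.trans h2.symm)
where
  pow_left_injective₀' {a b : ℝ} (ha : 0 ≤ a) (hb : 0 ≤ b) (h : a ^ 6 = b ^ 6) : a = b :=
    (pow_left_inj₀ ha hb (by norm_num)).1 h

/-- the bound for realizations in a grid of a finite set with a strip of faces -/
theorem real_bound {V : Finset (Fin 3 → ℝ)} {A B : Fin 3 → ℝ} {r : ℕ → Fin 3 → ℝ} {M : ℕ} (hM : 4 ≤ M)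
    (hA : A ∈ V) (hB : B ∈ V) (hr : ∀ j ≤ M, r j ∈ V) (hAB : A ≠ B) (hrA : ∀ j ≤ M, r j ≠ A)
    (hrB : ∀ j ≤ M, r j ≠ B) (hinj : ∀ i ≤ M, ∀ j ≤ M, r i = r j → i = j)
    (hface : ∀ j, 1 ≤ j → j < M → ∃ a : Fin 3 → ℝ, ∃ c : ℝ, (∀ x ∈ V, ∑ i, a i * x i ≤ c) ∧
      ∀ x ∈ V, (∑ i, a i * x i = c ↔
        (x = (if j % 2 = 1 then A else B) ∨ x = r (j - 1) ∨ x = r j ∨ x = r (j + 1))))
    {N : ℕ} {g : (Fin 3 → ℝ) → (Fin 3 → ℝ)} (hg : Set.InjOn g (V : Set (Fin 3 → ℝ)))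
    (hN : ∀ v ∈ V, ∀ i : Fin 3, ∃ m : ℕ, g v i = (m : ℝ) ∧ m ≤ N)
    (hiff : ∀ S ⊆ V,
          ((∃ a : Fin 3 → ℝ, ∃ c : ℝ,
              (∀ x ∈ V, ∑ i, a i * x i ≤ c) ∧
              ∀ x ∈ V, (x ∈ S ↔ ∑ i, a i * x i = c)) ↔
           (∃ a : Fin 3 → ℝ, ∃ c : ℝ,
              (∀ x ∈ V, ∑ i, a i * g x i ≤ c) ∧
              ∀ x ∈ V, (x ∈ S ↔ ∑ i, a i * g x i = c)))) :
    ((M : ℝ) + 3) ^ 2 ≤ 10 ^ 8 * N := by
  classical
  -- the planes of the realization
  have hplane : ∀ j, ∃ a : Fin 3 → ℝ, ∃ c : ℝ, 1 ≤ j → j < M → (∀ x ∈ V, dot a (g x) ≤ c) ∧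
      ∀ x ∈ V, (dot a (g x) = c ↔
        (x = (if j % 2 = 1 then A else B) ∨ x = r (j - 1) ∨ x = r j ∨ x = r (j + 1))) := by
    intro j
    by_cases hj : 1 ≤ j ∧ j < M
    · obtain ⟨a, c, h1, h2⟩ := hface j hj.1 hj.2
      obtain ⟨a', c', h3, h4⟩ := (hiff (V.filter fun x => ∑ i, a i * x i = c) (Finset.filter_subset _ _)).1
        ⟨a, c, h1, fun x hx => by simp [hx]⟩
      refine ⟨a', c', fun _ _ => ⟨h3, fun x hx => ?_⟩⟩
      rw [← h2 x hx]
      have h5 := h4 x hx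
      rw [Finset.mem_filter] at h5
      constructor
      · intro h; exact (h5.2 h).2
      · intro h; exact h5.1 ⟨hx, h⟩
    · exact ⟨0, 0, fun h1 h2 => absurd ⟨h1, h2⟩ hj⟩
  choose a c hac using hplane
  have hstrip : Strip M (g A) (g B) (fun j => g (r j)) a c := by
    refine ⟨?_, ?_, ?_, ?_⟩
    · intro j h1 h2 h3
      obtain ⟨h4, h5⟩ := hac j h1 h2
      have e1 := (h5 A hA).2 (Or.inl (by rw [if_pos h3]))
      refine ⟨e1, lt_of_le_of_ne (h4 B hB) fun h => ?_⟩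
      rcases (h5 B hB).1 h with h6 | h6 | h6 | h6
      · rw [if_pos h3] at h6; exact hAB h6.symm
      · exact hrB (j - 1) (by omega) h6.symm
      · exact hrB j (by omega) h6.symm
      · exact hrB (j + 1) (by omega) h6.symm
    · intro j h1 h2 h3
      have h3' : ¬ j % 2 = 1 := by omega
      obtain ⟨h4, h5⟩ := hac j h1 h2
      have e1 := (h5 B hB).2 (Or.inl (by rw [if_neg h3']))
      refine ⟨e1, lt_of_le_of_ne (h4 A hA) fun h => ?_⟩
      rcases (h5 A hA).1 h with h6 | h6 | h6 | h6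
      · rw [if_neg h3'] at h6; exact hAB h6
      · exact hrA (j - 1) (by omega) h6.symm
      · exact hrA j (by omega) h6.symm
      · exact hrA (j + 1) (by omega) h6.symm
    · intro j h1 h2 i hi
      exact (hac j h1 h2).1 (r i) (hr i hi)
    · intro j h1 h2 i hi
      rw [(hac j h1 h2).2 (r i) (hr i hi)]
      constructor
      · rintro (h | h | h | h)
        · exfalso
          split_ifs at h
          · exact hrA i hi h
          · exact hrB i hi h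
        · left; have := hinj i hi (j - 1) (by omega) h; omega
        · right; left; exact hinj i hi j (by omega) h
        · right; right; exact hinj i hi (j + 1) (by omega) h
      · rintro (h | h | h)
        · right; left; rw [← h]; simp
        · right; right; left; rw [h]
        · right; right; right; rw [h]
  have hco : ∀ v ∈ V, ∀ i, IsInt (g v i) ∧ 0 ≤ g v i ∧ g v i ≤ (N : ℝ) := by
    intro v hv i
    obtain ⟨m, h1, h2⟩ := hN v hv i
    refine ⟨⟨m, by rw [h1]; simp⟩, by rw [h1]; positivity, ?_⟩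
    rw [h1]; exact_mod_cast h2
  have hb := strip_bound hM hstrip (hco A hA) (hco B hB) (fun j hj => hco (r j) (hr j hj))
  rw [root6_eight (by positivity)] at hb
  -- `N` is not zero
  have hN1 : 1 ≤ N := by
    rcases Nat.eq_zero_or_pos N with h | h
    · exfalso
      subst h
      apply hAB
      apply hg hA hB
      ext i
      obtain ⟨m, h1, h2⟩ := hN A hA i
      obtain ⟨m', h1', h2'⟩ := hN B hB i
      rw [h1, h1', Nat.le_zero.1 h2, Nat.le_zero.1 h2']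
    · exact h
  have hN1' : (1 : ℝ) ≤ N := by exact_mod_cast hN1
  have hs0 := Real.sqrt_nonneg (2 * (N : ℝ))
  have hs2 : Real.sqrt (2 * (N : ℝ)) ^ 2 = 2 * N := Real.sq_sqrt (by positivity)
  have hs1 : 1 ≤ Real.sqrt (2 * (N : ℝ)) := by
    rw [Real.one_le_sqrt]; linarith
  have h1 : (M : ℝ) + 3 ≤ 5013 * Real.sqrt (2 * N) := by linarith
  have h2 : (0 : ℝ) ≤ (M : ℝ) + 3 := by positivity
  calc ((M : ℝ) + 3) ^ 2 ≤ (5013 * Real.sqrt (2 * N)) ^ 2 := pow_le_pow_left₀ h2 h1 2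
    _ = 5013 ^ 2 * Real.sqrt (2 * N) ^ 2 := by ring
    _ = 5013 ^ 2 * (2 * N) := by rw [hs2]
    _ ≤ 10 ^ 8 * N := by nlinarith

end Pool.Agent.QLB
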