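import Mathlib

/-!
MP_9dcace_co, lower bound: the one-dimensional estimate (a discrete Sturm equation on an increasing arc).
-/

set_option autoImplicit false

namespace Pool.Agent.QLB

/-- a jump of type `D` -/
theorem jumpD {z z' : ℝ} (hz : 1 ≤ z) (hz' : 0 ≤ z') (h : z ^ 6 + z ^ 5 / 2 ≤ z' ^ 6) : z + 1 / 40 ≤ z' := by
  by_contra hc
  push Not at hc
  have h1 : z' ^ 6 < (z + 1 / 40) ^ 6 := pow_lt_pow_left₀ hc hz' (by norm_num)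
  have h2 : (z + 1 / 40) ^ 6 ≤ z ^ 6 + z ^ 5 / 2 := by
    have hz0 : 0 ≤ z := by linarith
    have e1 : z ^ 4 ≤ z ^ 5 := pow_le_pow_right₀ hz (by norm_num)
    have e2 : z ^ 3 ≤ z ^ 5 := pow_le_pow_right₀ hz (by norm_num)
    have e3 : z ^ 2 ≤ z ^ 5 := pow_le_pow_right₀ hz (by norm_num)
    have e4 : z ≤ z ^ 5 := le_self_pow₀ hz (by norm_num)
    have e5 : 1 ≤ z ^ 5 := one_le_pow₀ hz
    nlinarith [e1, e2, e3, e4, e5]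
  linarith

/-- a jump of type `T`; here `x = 1/v` -/
theorem jumpT {x x' c : ℝ} (hx : 0 < x) (hx' : 0 < x') (hc : 0 < c) (hc1 : c ≤ 1) (h1 : x ^ 6 ≤ 2 * c ^ 6)
    (h2 : x' ^ 6 ≤ x ^ 6 - c ^ 7 / 2) : 1 / x + 1 / 40 ≤ 1 / x' := by
  have k1 : 8 / 9 * x ≤ c := by
    by_contra hcon
    push Not at hcon
    have := pow_lt_pow_left₀ hcon hc.le (n := 6) (by norm_num)
    have e : (8 / 9 * x) ^ 6 = (8 / 9) ^ 6 * x ^ 6 := by ring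
    have hx6 : 0 < x ^ 6 := by positivity
    rw [e] at this
    norm_num at this
    nlinarith
  have k2 : (8 / 9 * x) ^ 7 ≤ c ^ 7 := pow_le_pow_left₀ (by positivity) k1 7
  have k3 : x ≤ 9 / 8 := by linarith
  have k4 : x' ^ 6 ≤ x ^ 6 * (1 - x / 5) := by
    have e : (8 / 9 * x) ^ 7 = (8 / 9) ^ 7 * x ^ 7 := by ring
    have hx7 : 0 < x ^ 7 := by positivity
    have e2 : x ^ 6 * (1 - x / 5) = x ^ 6 - x ^ 7 / 5 := by ring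
    rw [e2]
    rw [e] at k2
    norm_num at k2
    nlinarith
  have k5 : (1 + x / 40) ^ 6 ≤ 1 + x / 5 := by
    have hx0 := hx.le
    have a1 : x ^ 2 ≤ 9 / 8 * x := by nlinarith
    have a2 : x ^ 3 ≤ (9 / 8) ^ 2 * x := by
      have : x ^ 3 = x ^ 2 * x := by ring
      rw [this]
      have : x ^ 2 ≤ (9 / 8) ^ 2 := pow_le_pow_left₀ hx0 k3 2
      nlinarith
    have a3 : x ^ 4 ≤ (9 / 8) ^ 3 * x := by
      have : x ^ 4 = x ^ 3 * x := by ring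
      rw [this]
      have : x ^ 3 ≤ (9 / 8) ^ 3 := pow_le_pow_left₀ hx0 k3 3
      nlinarith
    have a4 : x ^ 5 ≤ (9 / 8) ^ 4 * x := by
      have : x ^ 5 = x ^ 4 * x := by ring
      rw [this]
      have : x ^ 4 ≤ (9 / 8) ^ 4 := pow_le_pow_left₀ hx0 k3 4
      nlinarith
    have a5 : x ^ 6 ≤ (9 / 8) ^ 5 * x := by
      have : x ^ 6 = x ^ 5 * x := by ring
      rw [this]
      have : x ^ 5 ≤ (9 / 8) ^ 5 := pow_le_pow_left₀ hx0 k3 5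
      nlinarith
    have e : (1 + x / 40) ^ 6 = 1 + 6 / 40 * x + 15 / 40 ^ 2 * x ^ 2 + 20 / 40 ^ 3 * x ^ 3 + 15 / 40 ^ 4 * x ^ 4
        + 6 / 40 ^ 5 * x ^ 5 + 1 / 40 ^ 6 * x ^ 6 := by ring
    rw [e]
    norm_num at a1 a2 a3 a4 a5 ⊢
    nlinarith
  have k6 : x' * (1 + x / 40) ≤ x := by
    by_contra hcon
    push Not at hcon
    have h3 := pow_lt_pow_left₀ hcon hx.le (n := 6) (by norm_num)
    rw [mul_pow] at h3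
    have hx6 : 0 < x ^ 6 := by positivity
    have h4 : x' ^ 6 * (1 + x / 40) ^ 6 ≤ x' ^ 6 * (1 + x / 5) := by
      apply mul_le_mul_of_nonneg_left k5 (by positivity)
    have h5 : x' ^ 6 * (1 + x / 5) ≤ x ^ 6 * (1 - x / 5) * (1 + x / 5) := by
      apply mul_le_mul_of_nonneg_right k4 (by positivity)
    have h6 : x ^ 6 * (1 - x / 5) * (1 + x / 5) ≤ x ^ 6 := by
      have : x ^ 6 * (1 - x / 5) * (1 + x / 5) = x ^ 6 - x ^ 8 / 25 := by ring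
      rw [this]
      have : 0 < x ^ 8 := by positivity
      linarith
    linarith
  have k7 : 1 / x + 1 / 40 = (1 + x / 40) / x := by field_simp
  rw [k7, div_le_div_iff₀ hx hx']
  linarith

/-- a window without a jump contradicts the determinant inequality -/
theorem window_lt {D0 D1 D2 D3 D4 D5 t1 t2 t3 t4 t5 z0 z1 z2 z3 z4 z5 : ℝ}
    (hz0 : 1 ≤ z0) (h01 : z0 ≤ z1) (h12 : z1 ≤ z2) (h23 : z2 ≤ z3) (h34 : z3 ≤ z4) (h45 : z4 ≤ z5)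
    (p0 : 0 < D0) (p1 : 0 < D1) (p2 : 0 < D2) (p3 : 0 < D3) (p4 : 0 < D4) (p5 : 0 < D5)
    (q1 : 0 < t1) (q2 : 0 < t2) (q3 : 0 < t3) (q4 : 0 < t4) (q5 : 0 < t5)
    (d0 : D0 < z0 ^ 5 / 2) (d1 : D1 < z1 ^ 5 / 2) (d2 : D2 < z2 ^ 5 / 2) (d3 : D3 < z3 ^ 5 / 2)
    (d4 : D4 < z4 ^ 5 / 2) (d5 : D5 < z5 ^ 5 / 2)
    (e1 : t1 * z1 ^ 7 < 1 / 2) (e2 : t2 * z2 ^ 7 < 1 / 2) (e3 : t3 * z3 ^ 7 < 1 / 2) (e4 : t4 * z4 ^ 7 < 1 / 2)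
    (e5 : t5 * z5 ^ 7 < 1 / 2) :
    t1 * t2 * t3 * t4 * t5 * (D0 * D1 * D2 * D3 * D4 * D5) * (D2 + D3) < 1 := by
  have w0 : 0 < z0 := by linarith
  have w1 : 0 < z1 := by linarith
  have w2 : 0 < z2 := by linarith
  have w3 : 0 < z3 := by linarith
  have w4 : 0 < z4 := by linarith
  have w5 : 0 < z5 := by linarith
  have T : (t1 * z1 ^ 7) * (t2 * z2 ^ 7) * (t3 * z3 ^ 7) * (t4 * z4 ^ 7) * (t5 * z5 ^ 7) ≤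
      (1 / 2) * (1 / 2) * (1 / 2) * (1 / 2) * (1 / 2) := by
    gcongr
  have DD : D0 * D1 * D2 * D3 * D4 * D5 ≤
      (z0 ^ 5 / 2) * (z1 ^ 5 / 2) * (z2 ^ 5 / 2) * (z3 ^ 5 / 2) * (z4 ^ 5 / 2) * (z5 ^ 5 / 2) := by
    gcongr
  have D23 : D2 + D3 ≤ z3 ^ 5 := by
    have : z2 ^ 5 ≤ z3 ^ 5 := by gcongr
    linarith
  have key : z0 ^ 5 * z3 ^ 3 ≤ z1 ^ 2 * z2 ^ 2 * (z4 ^ 2 * z5 ^ 2) := by
    have a1 : z0 ^ 2 ≤ z1 ^ 2 := by gcongr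
    have a2 : z0 ^ 2 ≤ z2 ^ 2 := by gcongr; linarith
    have a3 : z0 * z3 ^ 3 ≤ z4 ^ 2 * z5 ^ 2 := by
      have b1 : z3 ^ 2 ≤ z4 ^ 2 := by gcongr
      have b2 : z3 ^ 2 ≤ z5 ^ 2 := by gcongr; linarith
      calc z0 * z3 ^ 3 ≤ z3 * z3 ^ 3 := by
            apply mul_le_mul_of_nonneg_right (by linarith) (by positivity)
        _ = z3 ^ 2 * z3 ^ 2 := by ring
        _ ≤ z4 ^ 2 * z5 ^ 2 := by gcongr
    calc z0 ^ 5 * z3 ^ 3 = z0 ^ 2 * z0 ^ 2 * (z0 * z3 ^ 3) := by ring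
      _ ≤ z1 ^ 2 * z2 ^ 2 * (z4 ^ 2 * z5 ^ 2) := by gcongr
  have ZZ : (0 : ℝ) < (z1 * z2 * z3 * z4 * z5) ^ 7 := by positivity
  have main : (t1 * t2 * t3 * t4 * t5 * (D0 * D1 * D2 * D3 * D4 * D5) * (D2 + D3)) * (z1 * z2 * z3 * z4 * z5) ^ 7
      < (z1 * z2 * z3 * z4 * z5) ^ 7 := by
    have r1 : (t1 * t2 * t3 * t4 * t5 * (D0 * D1 * D2 * D3 * D4 * D5) * (D2 + D3)) * (z1 * z2 * z3 * z4 * z5) ^ 7
        = ((t1 * z1 ^ 7) * (t2 * z2 ^ 7) * (t3 * z3 ^ 7) * (t4 * z4 ^ 7) * (t5 * z5 ^ 7)) *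
          (D0 * D1 * D2 * D3 * D4 * D5) * (D2 + D3) := by ring
    have r2 : ((t1 * z1 ^ 7) * (t2 * z2 ^ 7) * (t3 * z3 ^ 7) * (t4 * z4 ^ 7) * (t5 * z5 ^ 7)) *
          (D0 * D1 * D2 * D3 * D4 * D5) * (D2 + D3) ≤
        ((1 / 2) * (1 / 2) * (1 / 2) * (1 / 2) * (1 / 2)) *
        ((z0 ^ 5 / 2) * (z1 ^ 5 / 2) * (z2 ^ 5 / 2) * (z3 ^ 5 / 2) * (z4 ^ 5 / 2) * (z5 ^ 5 / 2)) * z3 ^ 5 := by
      gcongr
    have r3 : ((1 / 2) * (1 / 2) * (1 / 2) * (1 / 2) * (1 / 2)) *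
        ((z0 ^ 5 / 2) * (z1 ^ 5 / 2) * (z2 ^ 5 / 2) * (z3 ^ 5 / 2) * (z4 ^ 5 / 2) * (z5 ^ 5 / 2)) * z3 ^ 5
        = (1 / 2048) * ((z0 ^ 5 * z3 ^ 3) * (z1 ^ 5 * z2 ^ 5 * z3 ^ 7 * z4 ^ 5 * z5 ^ 5)) := by ring
    have r4 : (z0 ^ 5 * z3 ^ 3) * (z1 ^ 5 * z2 ^ 5 * z3 ^ 7 * z4 ^ 5 * z5 ^ 5) ≤
        (z1 ^ 2 * z2 ^ 2 * (z4 ^ 2 * z5 ^ 2)) * (z1 ^ 5 * z2 ^ 5 * z3 ^ 7 * z4 ^ 5 * z5 ^ 5) :=
      mul_le_mul_of_nonneg_right key (by positivity)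
    have r5 : (z1 ^ 2 * z2 ^ 2 * (z4 ^ 2 * z5 ^ 2)) * (z1 ^ 5 * z2 ^ 5 * z3 ^ 7 * z4 ^ 5 * z5 ^ 5)
        = (z1 * z2 * z3 * z4 * z5) ^ 7 := by ring
    rw [r1]
    rw [r5] at r4
    rw [r3] at r2
    linarith
  by_contra hcon
  push Not at hcon
  have := mul_le_mul_of_nonneg_right hcon ZZ.le
  linarith

end Pool.Agent.QLB
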