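import Pool.Agent.Lib.MP_9dcace_lb.L1

/-!
MP_9dcace_co, lower bound: the one-dimensional estimate, main lemma.
-/

set_option autoImplicit false

namespace Pool.Agent.QLB

open Finset

/-- the sixth root -/
noncomputable def root6 (x : ℝ) : ℝ := x ^ ((1 : ℝ) / 6)

theorem root6_pow {x : ℝ} (hx : 0 ≤ x) : root6 x ^ 6 = x := by
  unfold root6
  rw [← Real.rpow_natCast, ← Real.rpow_mul hx]
  norm_num

theorem root6_pos {x : ℝ} (hx : 0 < x) : 0 < root6 x := Real.rpow_pos_of_pos hx _

theorem root6_nonneg {x : ℝ} (hx : 0 ≤ x) : 0 ≤ root6 x := Real.rpow_nonneg hx _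

theorem root6_mono {x y : ℝ} (hx : 0 ≤ x) (h : x ≤ y) : root6 x ≤ root6 y :=
  Real.rpow_le_rpow hx h (by norm_num)

theorem one_le_root6 {x : ℝ} (hx : 1 ≤ x) : 1 ≤ root6 x := Real.one_le_rpow hx (by norm_num)

theorem root6_inv {x : ℝ} (hx : 0 ≤ x) : root6 x⁻¹ = (root6 x)⁻¹ := Real.inv_rpow hx _

/-- the one-dimensional estimate on an arc where `u` increases -/
theorem oneD (m : ℕ) (u D τ : ℕ → ℝ) (S : ℝ)
    (hu : ∀ l ≤ m, 0 < u l) (hD : ∀ l < m, 1 ≤ D l) (hS : ∑ l ∈ range m, D l ≤ S)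
    (hinc : ∀ l < m, u l ≤ u (l + 1))
    (hτ : ∀ l, 1 ≤ l → l < m → 0 < τ l)
    (heq : ∀ l, l + 1 < m →
      (u (l + 1) - u l) / D l - (u (l + 2) - u (l + 1)) / D (l + 1) = τ (l + 1) * u (l + 1))
    (hw : ∀ i, i + 6 ≤ m → 1 ≤ τ (i + 1) * τ (i + 2) * τ (i + 3) * τ (i + 4) * τ (i + 5) *
      (D i * D (i + 1) * D (i + 2) * D (i + 3) * D (i + 4) * D (i + 5)) * (D (i + 2) + D (i + 3))) :
    (m : ℝ) ≤ 500 * root6 S := by
  rcases Nat.eq_zero_or_pos m with hm0 | hm0
  · subst hm0
    simp only [Nat.cast_zero]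
    have : 0 ≤ S := by simpa using hS
    have := root6_nonneg this
    positivity
  set s : ℕ → ℝ := fun l => ∑ i ∈ range l, D i with hs
  have hs_succ : ∀ l, s (l + 1) = s l + D l := fun l => by simp [hs, sum_range_succ]
  have hsl : ∀ l ≤ m, (l : ℝ) ≤ s l := by
    intro l
    induction l with
    | zero => intro _; simp [hs]
    | succ l ih =>
      intro hl
      have h1 := ih (by omega)
      have h2 := hD l (by omega)
      rw [hs_succ]; push_cast; linarith
  have hsmono : ∀ l ≤ m, ∀ l' ≤ l, s l' ≤ s l := by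
    intro l
    induction l with
    | zero => intro _ l' hl'; have : l' = 0 := by omega
              subst this; exact le_rfl
    | succ l ih =>
      intro hl l' hl'
      rcases Nat.lt_or_ge l' (l + 1) with h | h
      · have h1 := ih (by omega) l' (by omega)
        have h2 := hD l (by omega)
        rw [hs_succ]; linarith
      · have : l' = l + 1 := by omega
        subst this; exact le_rfl
  have hsS : ∀ l ≤ m, s l ≤ S := fun l hl => (hsmono m le_rfl l hl).trans hS
  have hs1 : ∀ l, 1 ≤ l → l ≤ m → 1 ≤ s l := by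
    intro l h1 h2
    have := hsl l h2
    have h3 : (1 : ℝ) ≤ (l : ℝ) := by exact_mod_cast h1
    linarith
  have hS1 : 1 ≤ S := (hs1 m hm0 le_rfl).trans (hsS m le_rfl)
  have hR1 := one_le_root6 hS1
  set p : ℕ → ℝ := fun l => (u (l + 1) - u l) / D l with hp
  have hp0 : ∀ l < m, 0 ≤ p l := by
    intro l hl
    have h1 := hinc l hl
    have h2 := hD l hl
    exact div_nonneg (by linarith) (by linarith)
  have hup : ∀ l < m, u (l + 1) = u l + D l * p l := by
    intro l hl
    have h2 := hD l hl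
    have : D l ≠ 0 := by linarith
    simp only [hp]; field_simp; ring
  -- `y l`
  set y : ℕ → ℝ := fun l => p (l - 1) / u l with hy
  have hy0 : ∀ l, 1 ≤ l → l ≤ m → 0 ≤ y l := by
    intro l h1 h2
    exact div_nonneg (hp0 _ (by omega)) (hu l h2).le
  have hsp : ∀ l, l < m → s (l + 1) * p l ≤ u (l + 1) := by
    intro l
    induction l with
    | zero =>
      intro hl
      have h1 := hup 0 hl
      have h2 := hu 0 (by omega)
      have h3 : s (0 + 1) = D 0 := by simp [hs]
      rw [h3, h1]; linarith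
    | succ l ih =>
      intro hl
      have h1 := ih (by omega)
      have h2 := heq l (by omega)
      have h3 : p l - p (l + 1) = τ (l + 1) * u (l + 1) := h2
      have h4 := hτ (l + 1) (by omega) hl
      have h5 := hu (l + 1) (by omega)
      have h6 : p (l + 1) ≤ p l := by nlinarith [mul_pos h4 h5]
      have h7 : 0 ≤ s (l + 1) := by
        have := hs1 (l + 1) (by omega) (by omega); linarith
      rw [hs_succ (l + 1), hup (l + 1) hl]
      have h8 : s (l + 1) * p (l + 1) ≤ s (l + 1) * p l := mul_le_mul_of_nonneg_left h6 h7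
      linarith
  have hsy : ∀ l, 1 ≤ l → l ≤ m → s l * y l ≤ 1 := by
    intro l h1 h2
    obtain ⟨l, rfl⟩ : ∃ l', l = l' + 1 := ⟨l - 1, by omega⟩
    have h3 := hsp l (by omega)
    have h4 := hu (l + 1) h2
    simp only [hy, Nat.add_sub_cancel]
    rw [← mul_div_assoc, div_le_one h4]
    exact h3
  have hystep : ∀ l, 1 ≤ l → l < m → y (l + 1) ≤ y l - τ l := by
    intro l h1 h2
    obtain ⟨l, rfl⟩ : ∃ l', l = l' + 1 := ⟨l - 1, by omega⟩
    have h3 : p l - p (l + 1) = τ (l + 1) * u (l + 1) := heq l (by omega)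
    have h4 := hu (l + 1) (by omega)
    have h5 := hu (l + 2) (by omega)
    have h6 := hinc (l + 1) h2
    have h7 := hp0 (l + 1) h2
    simp only [hy, Nat.add_sub_cancel]
    have h8 : p (l + 1) / u (l + 1 + 1) ≤ p (l + 1) / u (l + 1) :=
      div_le_div_of_nonneg_left h7 h4 h6
    have h9 : p (l + 1) / u (l + 1) = p l / u (l + 1) - τ (l + 1) := by
      field_simp
      linarith
    linarith
  -- potentials
  set z : ℕ → ℝ := fun l => root6 (s l) with hz
  have hz6 : ∀ l, 1 ≤ l → l ≤ m → z l ^ 6 = s l := fun l h1 h2 =>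
    root6_pow (by have := hs1 l h1 h2; linarith)
  have hz1 : ∀ l, 1 ≤ l → l ≤ m → 1 ≤ z l := fun l h1 h2 => one_le_root6 (hs1 l h1 h2)
  have hzmono : ∀ l, 1 ≤ l → l < m → z l ≤ z (l + 1) := fun l h1 h2 =>
    root6_mono (by have := hs1 l h1 h2.le; linarith) (hsmono (l + 1) (by omega) l (by omega))
  set x : ℕ → ℝ := fun l => root6 (y l + S⁻¹) with hx
  have hSi : 0 < S⁻¹ := by positivity
  have hx6 : ∀ l, 1 ≤ l → l ≤ m → x l ^ 6 = y l + S⁻¹ := fun l h1 h2 =>
    root6_pow (by have := hy0 l h1 h2; linarith)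
  have hxpos : ∀ l, 1 ≤ l → l ≤ m → 0 < x l := fun l h1 h2 =>
    root6_pos (by have := hy0 l h1 h2; linarith)
  have hxmono : ∀ l, 1 ≤ l → l < m → x (l + 1) ≤ x l := fun l h1 h2 =>
    root6_mono (by have := hy0 (l + 1) (by omega) h2; linarith)
      (by have h3 := hystep l h1 h2; have h4 := hτ l h1 h2; linarith)
  set Φ : ℕ → ℝ := fun l => z l + 1 / x l with hΦ
  have hΦmono : ∀ l, 1 ≤ l → l < m → Φ l ≤ Φ (l + 1) := by
    intro l h1 h2
    have a := hzmono l h1 h2
    have b := one_div_le_one_div_of_le (hxpos (l + 1) (by omega) h2) (hxmono l h1 h2)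
    simp only [hΦ]; linarith
  have hΦD : ∀ l, 1 ≤ l → l < m → z l ^ 5 / 2 ≤ D l → Φ l + 1 / 40 ≤ Φ (l + 1) := by
    intro l h1 h2 h3
    have a : z l + 1 / 40 ≤ z (l + 1) := by
      apply jumpD (hz1 l h1 h2.le) (by have := hz1 (l + 1) (by omega) h2; linarith)
      rw [hz6 l h1 h2.le, hz6 (l + 1) (by omega) h2, hs_succ]
      linarith
    have b := one_div_le_one_div_of_le (hxpos (l + 1) (by omega) h2) (hxmono l h1 h2)
    simp only [hΦ]; linarith
  have hΦT : ∀ l, 1 ≤ l → l < m → 1 / 2 ≤ τ l * z l ^ 7 → Φ l + 1 / 40 ≤ Φ (l + 1) := by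
    intro l h1 h2 h3
    have hzl := hz1 l h1 h2.le
    have hzl0 : 0 < z l := by linarith
    have a : 1 / x l + 1 / 40 ≤ 1 / x (l + 1) := by
      apply jumpT (c := 1 / z l) (hxpos l h1 h2.le) (hxpos (l + 1) (by omega) h2) (by positivity)
      · rw [div_le_one hzl0]; exact hzl
      · rw [hx6 l h1 h2.le, div_pow, one_pow, hz6 l h1 h2.le]
        have c1 := hsy l h1 h2.le
        have c2 : 0 < s l := by have := hs1 l h1 h2.le; linarith
        have c3 : y l ≤ 1 / s l := by rw [le_div_iff₀ c2]; linarith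
        have c4 : S⁻¹ ≤ 1 / s l := by
          rw [← one_div]; exact one_div_le_one_div_of_le c2 (hsS l h2.le)
        linarith
      · rw [hx6 l h1 h2.le, hx6 (l + 1) (by omega) h2]
        have c1 := hystep l h1 h2
        have c2 : (1 / z l) ^ 7 / 2 ≤ τ l := by
          rw [div_pow, one_pow]
          have : 0 < z l ^ 7 := by positivity
          rw [div_div, div_le_iff₀ (by positivity)]
          linarith
        linarith
    have b := hzmono l h1 h2
    simp only [hΦ]; linarith
  -- one window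
  have hwin : ∀ i, 1 ≤ i → i + 6 ≤ m → Φ i + 1 / 40 ≤ Φ (i + 6) := by
    intro i h1 h2
    have m0 : Φ i ≤ Φ (i + 1) := hΦmono i h1 (by omega)
    have m1 : Φ (i + 1) ≤ Φ (i + 2) := hΦmono (i + 1) (by omega) (by omega)
    have m2 : Φ (i + 2) ≤ Φ (i + 3) := hΦmono (i + 2) (by omega) (by omega)
    have m3 : Φ (i + 3) ≤ Φ (i + 4) := hΦmono (i + 3) (by omega) (by omega)
    have m4 : Φ (i + 4) ≤ Φ (i + 5) := hΦmono (i + 4) (by omega) (by omega)
    have m5 : Φ (i + 5) ≤ Φ (i + 6) := hΦmono (i + 5) (by omega) (by omega)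
    by_contra hcon
    push Not at hcon
    have key : ∀ k, k ≤ 5 → Φ (i + k) + 1 / 40 ≤ Φ (i + k + 1) → False := by
      intro k hk h
      interval_cases k
      · have h' : Φ i + 1 / 40 ≤ Φ (i + 1) := h
        linarith
      · have h' : Φ (i + 1) + 1 / 40 ≤ Φ (i + 2) := h
        linarith
      · have h' : Φ (i + 2) + 1 / 40 ≤ Φ (i + 3) := h
        linarith
      · have h' : Φ (i + 3) + 1 / 40 ≤ Φ (i + 4) := h
        linarith
      · have h' : Φ (i + 4) + 1 / 40 ≤ Φ (i + 5) := h
        linarith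
      · have h' : Φ (i + 5) + 1 / 40 ≤ Φ (i + 6) := h
        linarith
    have nD : ∀ k, k ≤ 5 → D (i + k) < z (i + k) ^ 5 / 2 := by
      intro k hk
      by_contra hc
      push Not at hc
      exact key k hk (hΦD (i + k) (by omega) (by omega) hc)
    have nT : ∀ k, 1 ≤ k → k ≤ 5 → τ (i + k) * z (i + k) ^ 7 < 1 / 2 := by
      intro k hk1 hk
      by_contra hc
      push Not at hc
      exact key k hk (hΦT (i + k) (by omega) (by omega) hc)
    have hDp : ∀ k, k ≤ 5 → 0 < D (i + k) := fun k hk => by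
      have := hD (i + k) (by omega); linarith
    have hτp : ∀ k, 1 ≤ k → k ≤ 5 → 0 < τ (i + k) := fun k hk1 hk => hτ (i + k) (by omega) (by omega)
    have e := window_lt (hz1 i h1 (by omega)) (hzmono i h1 (by omega)) (hzmono (i + 1) (by omega) (by omega))
      (hzmono (i + 2) (by omega) (by omega)) (hzmono (i + 3) (by omega) (by omega))
      (hzmono (i + 4) (by omega) (by omega))
      (hDp 0 (by omega)) (hDp 1 (by omega)) (hDp 2 (by omega)) (hDp 3 (by omega)) (hDp 4 (by omega))
      (hDp 5 (by omega)) (hτp 1 (by omega) (by omega)) (hτp 2 (by omega) (by omega)) (hτp 3 (by omega) (by omega))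
      (hτp 4 (by omega) (by omega)) (hτp 5 (by omega) (by omega))
      (nD 0 (by omega)) (nD 1 (by omega)) (nD 2 (by omega)) (nD 3 (by omega)) (nD 4 (by omega)) (nD 5 (by omega))
      (nT 1 (by omega) (by omega)) (nT 2 (by omega) (by omega)) (nT 3 (by omega) (by omega))
      (nT 4 (by omega) (by omega)) (nT 5 (by omega) (by omega))
    have f := hw i h2
    simp only [Nat.add_zero] at e
    linarith
  have hmany : ∀ q, 6 * (q + 1) ≤ m → (q : ℝ) / 40 ≤ Φ (6 * (q + 1)) := by
    intro q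
    induction q with
    | zero =>
      intro h
      have a := hz1 (6 * (0 + 1)) (by omega) h
      have b := hxpos (6 * (0 + 1)) (by omega) h
      simp only [hΦ, Nat.cast_zero, zero_div]
      positivity
    | succ q ih =>
      intro h
      have a := ih (by omega)
      have b := hwin (6 * (q + 1)) (by omega) (by omega)
      have e : 6 * (q + 1) + 6 = 6 * (q + 1 + 1) := by ring
      rw [e] at b
      push_cast
      linarith
  -- conclusion
  rcases Nat.lt_or_ge m 12 with hm | hm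
  · have : (m : ℝ) ≤ 12 := by exact_mod_cast hm.le
    linarith
  obtain ⟨n, hn1, hn2⟩ : ∃ n, 6 * (n + 1) ≤ m ∧ m < 6 * (n + 2) := by
    refine ⟨m / 6 - 1, ?_, ?_⟩ <;> omega
  have a := hmany n hn1
  have b : Φ (6 * (n + 1)) ≤ 2 * root6 S := by
    have b1 : z (6 * (n + 1)) ≤ root6 S :=
      root6_mono (by have := hs1 (6 * (n + 1)) (by omega) hn1; linarith) (hsS _ hn1)
    have b2 : (root6 S)⁻¹ ≤ x (6 * (n + 1)) := by
      rw [← root6_inv (by linarith)]
      exact root6_mono hSi.le (by have := hy0 (6 * (n + 1)) (by omega) hn1; linarith)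
    have b3 : 1 / x (6 * (n + 1)) ≤ root6 S := by
      rw [div_le_iff₀ (hxpos _ (by omega) hn1)]
      have : 0 < root6 S := by linarith
      calc 1 = root6 S * (root6 S)⁻¹ := by field_simp
        _ ≤ root6 S * x (6 * (n + 1)) := mul_le_mul_of_nonneg_left b2 this.le
    simp only [hΦ]; linarith
  have c : (m : ℝ) ≤ 6 * ((n : ℝ) + 2) := by exact_mod_cast hn2.le
  linarith

end Pool.Agent.QLB
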