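import Pool.Agent.Lib.MP_9dcace_lb.L2

/-!
MP_9dcace_co, lower bound: the one-dimensional estimate on an arc where `u` is positive.
-/

set_option autoImplicit false

namespace Pool.Agent.QLB

open Finset

theorem oneD_block (m : ℕ) (u D τ : ℕ → ℝ) (S : ℝ)
    (hu : ∀ l ≤ m, 0 < u l) (hD : ∀ l < m, 1 ≤ D l) (hS : ∑ l ∈ range m, D l ≤ S)
    (hτ : ∀ l, 1 ≤ l → l < m → 0 < τ l)
    (heq : ∀ l, l + 1 < m →
      (u (l + 1) - u l) / D l - (u (l + 2) - u (l + 1)) / D (l + 1) = τ (l + 1) * u (l + 1))
    (hw : ∀ i, i + 6 ≤ m → 1 ≤ τ (i + 1) * τ (i + 2) * τ (i + 3) * τ (i + 4) * τ (i + 5) *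
      (D i * D (i + 1) * D (i + 2) * D (i + 3) * D (i + 4) * D (i + 5)) * (D (i + 2) + D (i + 3))) :
    (m : ℝ) ≤ 1000 * root6 S := by
  -- the turning point
  obtain ⟨t, ht, h1, h2⟩ : ∃ t ≤ m, (∀ l < t, u l ≤ u (l + 1)) ∧ ∀ l, t ≤ l → l < m → u (l + 1) ≤ u l := by
    classical
    by_cases hex : ∃ l < m, u (l + 1) < u l
    · set t := Nat.find hex with htdef
      have ht1 : t < m ∧ u (t + 1) < u t := Nat.find_spec hex
      have ht2 : ∀ l < t, ¬ (l < m ∧ u (l + 1) < u l) := fun l hl => Nat.find_min hex hl
      refine ⟨t, ht1.1.le, fun l hl => ?_, ?_⟩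
      · have := ht2 l hl
        push Not at this
        exact this (by omega)
      · have key : ∀ k, t + k < m → u (t + k + 1) < u (t + k) := by
          intro k
          induction k with
          | zero => intro _; exact ht1.2
          | succ k ih =>
            intro hk
            have a := ih (by omega)
            have b := heq (t + k) (by omega)
            have c := hτ (t + k + 1) (by omega) (by omega)
            have d := hu (t + k + 1) (by omega)
            have e1 := hD (t + k) (by omega)
            have e2 := hD (t + k + 1) (by omega)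
            have f1 : (u (t + k + 1) - u (t + k)) / D (t + k) < 0 :=
              div_neg_of_neg_of_pos (by linarith) (by linarith)
            have f2 : (u (t + k + 2) - u (t + k + 1)) / D (t + k + 1) < 0 := by
              have := mul_pos c d
              linarith
            have f3 : u (t + k + 2) - u (t + k + 1) < 0 := by
              by_contra hc
              push Not at hc
              have := div_nonneg hc (by linarith : (0 : ℝ) ≤ D (t + k + 1))
              linarith
            have g : u (t + (k + 1) + 1) - u (t + (k + 1)) < 0 := f3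
            linarith
        intro l hl hlm
        obtain ⟨k, rfl⟩ : ∃ k, l = t + k := ⟨l - t, by omega⟩
        exact (key k hlm).le
    · push Not at hex
      exact ⟨m, le_rfl, fun l hl => hex l hl, fun l h1 h2 => absurd h2 (by omega)⟩
  have A : (t : ℝ) ≤ 500 * root6 S := by
    apply oneD t u D τ S (fun l hl => hu l (by omega)) (fun l hl => hD l (by omega)) _ h1
      (fun l a b => hτ l a (by omega)) (fun l a => heq l (by omega)) (fun i hi => hw i (by omega))
    refine le_trans ?_ hS
    apply sum_le_sum_of_subset_of_nonneg
    · intro l hl; rw [mem_range] at *; omega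
    · intro l hl _
      rw [mem_range] at hl
      have := hD l hl; linarith
  obtain ⟨r, rfl⟩ : ∃ r, m = t + r := ⟨m - t, by omega⟩
  have B : (r : ℝ) ≤ 500 * root6 S := by
    apply oneD r (fun l => u (t + r - l)) (fun l => D (t + r - 1 - l)) (fun l => τ (t + r - l)) S
    · intro l hl; exact hu _ (by omega)
    · intro l hl; exact hD _ (by omega)
    · have e : ∑ l ∈ range r, D (t + r - 1 - l) = ∑ l ∈ range r, D (t + l) := by
        rw [← sum_range_reflect (fun l => D (t + l)) r]
        apply sum_congr rfl
        intro l hl
        rw [mem_range] at hl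
        congr 1
        omega
      rw [e]
      refine le_trans ?_ hS
      rw [sum_range_add]
      have : 0 ≤ ∑ l ∈ range t, D l := sum_nonneg fun l hl => by
        rw [mem_range] at hl
        have := hD l (by omega); linarith
      linarith
    · intro l hl
      have := h2 (t + r - l - 1) (by omega) (by omega)
      have e : t + r - l - 1 + 1 = t + r - l := by omega
      rw [e] at this
      have e2 : t + r - (l + 1) = t + r - l - 1 := by omega
      rw [e2]
      exact this
    · intro l a b
      exact hτ _ (by omega) (by omega)
    · intro l hl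
      obtain ⟨k, hk⟩ : ∃ k, t + r = l + 2 + k := ⟨t + r - (l + 2), by omega⟩
      have a := heq k (by omega)
      have e0 : t + r - l = k + 2 := by omega
      have e1 : t + r - (l + 1) = k + 1 := by omega
      have e2 : t + r - (l + 2) = k := by omega
      have e3 : t + r - 1 - l = k + 1 := by omega
      have e4 : t + r - 1 - (l + 1) = k := by omega
      simp only [e0, e1, e2, e3, e4]
      have n1 : (u (k + 1) - u (k + 2)) / D (k + 1) = - ((u (k + 2) - u (k + 1)) / D (k + 1)) := by ring
      have n2 : (u k - u (k + 1)) / D k = - ((u (k + 1) - u k) / D k) := by ring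
      rw [n1, n2]
      linarith
    · intro i hi
      obtain ⟨k, hk⟩ : ∃ k, t + r = i + 6 + k := ⟨t + r - (i + 6), by omega⟩
      have a := hw k (by omega)
      have e1 : t + r - (i + 1) = k + 5 := by omega
      have e2 : t + r - (i + 2) = k + 4 := by omega
      have e3 : t + r - (i + 3) = k + 3 := by omega
      have e4 : t + r - (i + 4) = k + 2 := by omega
      have e5 : t + r - (i + 5) = k + 1 := by omega
      have f0 : t + r - 1 - i = k + 5 := by omega
      have f1 : t + r - 1 - (i + 1) = k + 4 := by omega
      have f2 : t + r - 1 - (i + 2) = k + 3 := by omega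
      have f3 : t + r - 1 - (i + 3) = k + 2 := by omega
      have f4 : t + r - 1 - (i + 4) = k + 1 := by omega
      have f5 : t + r - 1 - (i + 5) = k := by omega
      simp only [e1, e2, e3, e4, e5, f0, f1, f2, f3, f4, f5]
      calc (1 : ℝ) ≤ _ := a
        _ = _ := by ring
  push_cast
  linarith

end Pool.Agent.QLB
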