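import Mathlib

/-!
MP_9dcace_co, lower bound: convex position in the plane, blocks in a quarter plane.
-/

set_option autoImplicit false

namespace Pool.Agent.QLB

open Finset

/-- two edges which cross the same ray coincide -/
theorem cross_unique {X Y α β : ℕ → ℝ} {n : ℕ} (e f : ℝ)
    (hd : ∀ j < n, 0 < X j * Y (j + 1) - X (j + 1) * Y j)
    (hle : ∀ j < n, ∀ i ≤ n, α j * X i + β j * Y i ≤ 1)
    (heq : ∀ j < n, ∀ i ≤ n, (α j * X i + β j * Y i = 1 ↔ i = j ∨ i = j + 1))
    {j j' : ℕ} (hj : j < n) (hj' : j' < n)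
    (h1 : e * X j + f * Y j ≤ 0) (h2 : 0 < e * X (j + 1) + f * Y (j + 1))
    (h3 : e * X j' + f * Y j' ≤ 0) (h4 : 0 < e * X (j' + 1) + f * Y (j' + 1)) : j = j' := by
  set u : ℕ → ℝ := fun i => e * X i + f * Y i with hu
  -- the general inequality
  have gen : ∀ a b : ℕ, a < n → b < n → u a ≤ 0 → 0 < u (a + 1) → u b ≤ 0 → 0 < u (b + 1) →
      (u (a + 1) - u a) * (X b * Y (b + 1) - X (b + 1) * Y b) ≤
        (u (b + 1) - u b) * (X a * Y (a + 1) - X (a + 1) * Y a) ∧
      ((u (a + 1) - u a) * (X b * Y (b + 1) - X (b + 1) * Y b) =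
        (u (b + 1) - u b) * (X a * Y (a + 1) - X (a + 1) * Y a) → b = a ∨ b = a + 1) := by
    intro a b ha hb ua ua' ub ub'
    have p1 : α a * X a + β a * Y a = 1 := (heq a ha a (by omega)).2 (Or.inl rfl)
    have p2 : α a * X (a + 1) + β a * Y (a + 1) = 1 := (heq a ha (a + 1) (by omega)).2 (Or.inr rfl)
    have p3 := hle a ha b (by omega)
    have p4 := hle a ha (b + 1) (by omega)
    have da := hd a ha
    have db := hd b hb
    -- phi(eta)
    have q1 : (X a * Y (a + 1) - X (a + 1) * Y a) * (α a * f - β a * e) = u (a + 1) - u a := by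
      simp only [hu]
      linear_combination (e * X (a + 1) + f * Y (a + 1)) * p1 - (e * X a + f * Y a) * p2
    have q2 : (X b * Y (b + 1) - X (b + 1) * Y b) * (α a * f - β a * e) =
        u (b + 1) * (α a * X b + β a * Y b) - u b * (α a * X (b + 1) + β a * Y (b + 1)) := by
      simp only [hu]; ring
    have q3 : u (b + 1) * (α a * X b + β a * Y b) - u b * (α a * X (b + 1) + β a * Y (b + 1)) ≤
        u (b + 1) - u b := by nlinarith
    constructor
    · rw [← q1, mul_comm (X a * Y (a + 1) - X (a + 1) * Y a) (α a * f - β a * e), mul_assoc,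
        mul_comm (u (b + 1) - u b)]
      have : (α a * f - β a * e) * ((X a * Y (a + 1) - X (a + 1) * Y a) * (X b * Y (b + 1) - X (b + 1) * Y b))
          = (X a * Y (a + 1) - X (a + 1) * Y a) *
            ((X b * Y (b + 1) - X (b + 1) * Y b) * (α a * f - β a * e)) := by ring
      rw [this]
      apply mul_le_mul_of_nonneg_left _ da.le
      rw [q2]; exact q3
    · intro hE
      have e1 : (X a * Y (a + 1) - X (a + 1) * Y a) *
          ((X b * Y (b + 1) - X (b + 1) * Y b) * (α a * f - β a * e)) =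
          (X a * Y (a + 1) - X (a + 1) * Y a) * (u (b + 1) - u b) := by
        have : (X a * Y (a + 1) - X (a + 1) * Y a) *
          ((X b * Y (b + 1) - X (b + 1) * Y b) * (α a * f - β a * e)) =
          ((X a * Y (a + 1) - X (a + 1) * Y a) * (α a * f - β a * e)) *
          (X b * Y (b + 1) - X (b + 1) * Y b) := by ring
        rw [this, q1, hE]; ring
      have e2 := mul_left_cancel₀ da.ne' e1
      rw [q2] at e2
      have e3 : α a * X b + β a * Y b = 1 := by
        by_contra hne
        have hlt : α a * X b + β a * Y b < 1 := lt_of_le_of_ne p3 hne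
        nlinarith
      exact (heq a ha b (by omega)).1 e3
  have g1 := gen j j' hj hj' h1 h2 h3 h4
  have g2 := gen j' j hj' hj h3 h4 h1 h2
  have ee := le_antisymm g1.1 g2.1
  have r1 := g1.2 ee
  have r2 := g2.2 ee.symm
  omega

/-- a long block in one quarter plane -/
theorem block2D (n L : ℕ) (hL : 5 * L ≤ n + 1) (X Y α β : ℕ → ℝ)
    (hd : ∀ j < n, 0 < X j * Y (j + 1) - X (j + 1) * Y j)
    (hle : ∀ j < n, ∀ i ≤ n, α j * X i + β j * Y i ≤ 1)
    (heq : ∀ j < n, ∀ i ≤ n, (α j * X i + β j * Y i = 1 ↔ i = j ∨ i = j + 1)) :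
    ∃ a, a + L ≤ n + 1 ∧ ∃ e f : ℝ, e ^ 2 + f ^ 2 = 1 ∧ |e| + |f| = 1 ∧
      ∀ i, a ≤ i → i < a + L → 0 < e * X i + f * Y i ∧ |e * Y i - f * X i| ≤ e * X i + f * Y i := by
  classical
  rcases Nat.eq_zero_or_pos L with hL0 | hL0
  · subst hL0
    exact ⟨0, by omega, 1, 0, by norm_num, by norm_num, fun i h1 h2 => by omega⟩
  have hn : 1 ≤ n := by omega
  -- the points are not zero
  have hnz : ∀ i ≤ n, ¬ (X i = 0 ∧ Y i = 0) := by
    rintro i hi ⟨hx, hy⟩
    rcases Nat.lt_or_ge i n with h | h
    · have := hd i h; rw [hx, hy] at this; simp at this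
    · obtain ⟨k, hk⟩ : ∃ k, i = k + 1 := ⟨i - 1, by omega⟩
      subst hk
      have := hd k (by omega); rw [hx, hy] at this; simp at this
  -- crossings
  let Cr : Fin 4 → ℕ → Prop := fun c j =>
    if c = 0 then (Y j - X j ≤ 0 ∧ 0 < Y (j + 1) - X (j + 1))
    else if c = 1 then (0 ≤ X j + Y j ∧ X (j + 1) + Y (j + 1) < 0)
    else if c = 2 then (0 ≤ Y j - X j ∧ Y (j + 1) - X (j + 1) < 0)
    else (X j + Y j ≤ 0 ∧ 0 < X (j + 1) + Y (j + 1))
  have hCr : ∀ c j j', j < n → j' < n → Cr c j → Cr c j' → j = j' := by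
    intro c j j' hj hj' a b
    fin_cases c
    · simp only [Cr] at a b
      simp at a b
      exact cross_unique (-1) 1 hd hle heq hj hj' (by linarith [a.1]) (by linarith [a.2]) (by linarith [b.1])
        (by linarith [b.2])
    · simp only [Cr] at a b
      simp at a b
      exact cross_unique (-1) (-1) hd hle heq hj hj' (by linarith [a.1]) (by linarith [a.2]) (by linarith [b.1])
        (by linarith [b.2])
    · simp only [Cr] at a b
      simp at a b
      exact cross_unique 1 (-1) hd hle heq hj hj' (by linarith [a.1]) (by linarith [a.2]) (by linarith [b.1])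
        (by linarith [b.2])
    · simp only [Cr] at a b
      simp at a b
      exact cross_unique 1 1 hd hle heq hj hj' (by linarith [a.1]) (by linarith [a.2]) (by linarith [b.1])
        (by linarith [b.2])
  -- a block without crossings
  have hblock : ∃ k : Fin 5, ∀ j, k.val * L ≤ j → j + 1 < (k.val + 1) * L → ∀ c, ¬ Cr c j := by
    by_contra hcon
    push Not at hcon
    choose jj h1 h2 cc h3 using hcon
    obtain ⟨k, k', hne, hkk⟩ := Fintype.exists_ne_map_eq_of_card_lt cc (by simp)
    have hk1 : jj k < n := by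
      have := h2 k
      have h5 : (k.val + 1) * L ≤ 5 * L := Nat.mul_le_mul_right _ (by omega)
      omega
    have hk2 : jj k' < n := by
      have := h2 k'
      have h5 : (k'.val + 1) * L ≤ 5 * L := Nat.mul_le_mul_right _ (by omega)
      omega
    have hjj : jj k = jj k' := hCr (cc k) _ _ hk1 hk2 (h3 k) (by rw [hkk]; exact h3 k')
    have a1 := h1 k
    have a2 := h2 k
    have b1 := h1 k'
    have b2 := h2 k'
    rcases lt_or_gt_of_ne hne with h | h
    · have hv : k.val < k'.val := h
      have : (k.val + 1) * L ≤ k'.val * L := Nat.mul_le_mul_right _ (by omega)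
      omega
    · have hv : k'.val < k.val := h
      have : (k'.val + 1) * L ≤ k.val * L := Nat.mul_le_mul_right _ (by omega)
      omega
  obtain ⟨k, hk⟩ := hblock
  have hkL : (k.val + 1) * L ≤ 5 * L := Nat.mul_le_mul_right _ (by omega)
  have hkL' : (k.val + 1) * L = k.val * L + L := by ring
  set a := k.val * L with ha
  have step : ∀ j, a ≤ j → j + 1 < a + L →
      (¬ (Y j - X j ≤ 0 ∧ 0 < Y (j + 1) - X (j + 1))) ∧ (¬ (0 ≤ X j + Y j ∧ X (j + 1) + Y (j + 1) < 0)) ∧
      (¬ (0 ≤ Y j - X j ∧ Y (j + 1) - X (j + 1) < 0)) ∧ (¬ (X j + Y j ≤ 0 ∧ 0 < X (j + 1) + Y (j + 1))) := by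
    intro j h1 h2
    have h := hk j h1 (by omega)
    refine ⟨?_, ?_, ?_, ?_⟩
    · have := h 0; simp only [Cr] at this; simpa using this
    · have := h 1; simp only [Cr] at this; simpa using this
    · have := h 2; simp only [Cr] at this; simpa using this
    · have := h 3; simp only [Cr] at this; simpa using this
  -- the colour is constant
  have const : ∀ (Q : ℝ → ℝ → Prop), (∀ j, a ≤ j → j + 1 < a + L → Q (X j + Y j) (Y j - X j) →
      Q (X (j + 1) + Y (j + 1)) (Y (j + 1) - X (j + 1))) → Q (X a + Y a) (Y a - X a) →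
      ∀ i, a ≤ i → i < a + L → Q (X i + Y i) (Y i - X i) := by
    intro Q hQ h0 i h1 h2
    obtain ⟨t, rfl⟩ : ∃ t, i = a + t := ⟨i - a, by omega⟩
    induction t with
    | zero => exact h0
    | succ t ih => exact hQ (a + t) (by omega) h2 (ih (by omega) (by omega))
  have hdet : ∀ j, j < n → 0 < (X j + Y j) * (Y (j + 1) - X (j + 1)) - (X (j + 1) + Y (j + 1)) * (Y j - X j) := by
    intro j hj
    have := hd j hj
    have e : (X j + Y j) * (Y (j + 1) - X (j + 1)) - (X (j + 1) + Y (j + 1)) * (Y j - X j)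
      = 2 * (X j * Y (j + 1) - X (j + 1) * Y j) := by ring
    rw [e]; linarith
  have ha0 := hnz a (by omega)
  have ha1 : ¬ (X a + Y a = 0 ∧ Y a - X a = 0) := by
    rintro ⟨h1, h2⟩
    exact ha0 ⟨by linarith, by linarith⟩
  refine ⟨a, by omega, ?_⟩
  by_cases c0 : 0 < X a + Y a ∧ Y a - X a ≤ 0
  · refine ⟨1, 0, by norm_num, by norm_num, fun i h1 h2 => ?_⟩
    have h := const (fun A B => 0 < A ∧ B ≤ 0) (by
      intro j j1 j2 hj
      obtain ⟨s1, s2, s3, s4⟩ := step j j1 j2
      have dj := hdet j (by omega)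
      have t1 : Y (j + 1) - X (j + 1) ≤ 0 := by
        by_contra h; push Not at h; exact s1 ⟨hj.2, h⟩
      have t2 : 0 ≤ X (j + 1) + Y (j + 1) := by
        by_contra h; push Not at h; exact s2 ⟨hj.1.le, h⟩
      refine ⟨lt_of_le_of_ne t2 fun h => ?_, t1⟩
      rw [← h] at dj
      nlinarith [hj.1]) c0 i h1 h2
    obtain ⟨h3, h4⟩ := h
    constructor
    · linarith
    · rw [abs_le]; constructor <;> linarith
  by_cases c1 : 0 ≤ X a + Y a ∧ 0 < Y a - X a
  · refine ⟨0, 1, by norm_num, by norm_num, fun i h1 h2 => ?_⟩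
    have h := const (fun A B => 0 ≤ A ∧ 0 < B) (by
      intro j j1 j2 hj
      obtain ⟨s1, s2, s3, s4⟩ := step j j1 j2
      have dj := hdet j (by omega)
      have t1 : 0 ≤ X (j + 1) + Y (j + 1) := by
        by_contra h; push Not at h; exact s2 ⟨hj.1, h⟩
      have t2 : 0 ≤ Y (j + 1) - X (j + 1) := by
        by_contra h; push Not at h; exact s3 ⟨hj.2.le, h⟩
      refine ⟨t1, lt_of_le_of_ne t2 fun h => ?_⟩
      rw [← h] at dj
      nlinarith [hj.2]) c1 i h1 h2
    obtain ⟨h3, h4⟩ := h
    constructor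
    · linarith
    · rw [abs_le]; constructor <;> linarith
  by_cases c2 : X a + Y a < 0 ∧ 0 ≤ Y a - X a
  · refine ⟨-1, 0, by norm_num, by norm_num, fun i h1 h2 => ?_⟩
    have h := const (fun A B => A < 0 ∧ 0 ≤ B) (by
      intro j j1 j2 hj
      obtain ⟨s1, s2, s3, s4⟩ := step j j1 j2
      have dj := hdet j (by omega)
      have t1 : 0 ≤ Y (j + 1) - X (j + 1) := by
        by_contra h; push Not at h; exact s3 ⟨hj.2, h⟩
      have t2 : X (j + 1) + Y (j + 1) ≤ 0 := by
        by_contra h; push Not at h; exact s4 ⟨hj.1.le, h⟩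
      refine ⟨lt_of_le_of_ne t2 fun h => ?_, t1⟩
      rw [h] at dj
      nlinarith [hj.1]) c2 i h1 h2
    obtain ⟨h3, h4⟩ := h
    constructor
    · linarith
    · rw [abs_le]; constructor <;> linarith
  · have c3 : X a + Y a ≤ 0 ∧ Y a - X a < 0 := by
      push Not at c0 c1 c2
      have q1 : Y a - X a < 0 := by
        by_contra h
        push Not at h
        rcases lt_trichotomy (X a + Y a) 0 with h1 | h1 | h1
        · exact absurd (c2 h1) (by linarith)
        · rcases h.lt_or_eq with h2 | h2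
          · exact absurd (c1 h1.ge) (by linarith)
          · exact ha1 ⟨h1, h2.symm⟩
        · have h5 := c0 h1
          exact absurd (c1 h1.le) (by linarith)
      refine ⟨?_, q1⟩
      by_contra h
      push Not at h
      exact absurd (c0 h) (by linarith)
    refine ⟨0, -1, by norm_num, by norm_num, fun i h1 h2 => ?_⟩
    have h := const (fun A B => A ≤ 0 ∧ B < 0) (by
      intro j j1 j2 hj
      obtain ⟨s1, s2, s3, s4⟩ := step j j1 j2
      have dj := hdet j (by omega)
      have t1 : X (j + 1) + Y (j + 1) ≤ 0 := by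
        by_contra h; push Not at h; exact s4 ⟨hj.1, h⟩
      have t2 : Y (j + 1) - X (j + 1) ≤ 0 := by
        by_contra h; push Not at h; exact s1 ⟨hj.2.le, h⟩
      refine ⟨t1, lt_of_le_of_ne t2 fun h => ?_⟩
      rw [h] at dj
      nlinarith [hj.2]) c3 i h1 h2
    obtain ⟨h3, h4⟩ := h
    constructor
    · linarith
    · rw [abs_le]; constructor <;> linarith

end Pool.Agent.QLB
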