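import Pool.Agent.Lib.MP_9dcace_lb.L3
import Pool.Agent.Lib.MP_9dcace_lb.P2

/-!
MP_9dcace_co, lower bound: the planar bound (block, sum of the determinants, Sturm equation).
-/

set_option autoImplicit false

namespace Pool.Agent.QLB

open Finset

/-- the sum of the determinants along a block with bounded slopes -/
theorem sum_det_le (m : ℕ) (U V : ℕ → ℝ) (R : ℝ) (hU : ∀ l ≤ m, 0 < U l) (hV : ∀ l ≤ m, |V l| ≤ U l)
    (hUR : ∀ l ≤ m, U l ≤ R) (hd : ∀ l < m, 0 < U l * V (l + 1) - U (l + 1) * V l) :
    ∑ l ∈ range m, (U l * V (l + 1) - U (l + 1) * V l) ≤ 2 * R ^ 2 := by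
  have key : ∀ l < m, U l * V (l + 1) - U (l + 1) * V l ≤ R ^ 2 * (V (l + 1) / U (l + 1) - V l / U l) := by
    intro l hl
    have h0 := hU l (by omega)
    have h1 := hU (l + 1) (by omega)
    have e : U l * V (l + 1) - U (l + 1) * V l = (U l * U (l + 1)) * (V (l + 1) / U (l + 1) - V l / U l) := by
      field_simp
    have hs : 0 < V (l + 1) / U (l + 1) - V l / U l := by
      have h2 := hd l hl
      rw [e] at h2
      exact (mul_pos_iff_of_pos_left (mul_pos h0 h1)).1 h2
    rw [e]
    apply mul_le_mul_of_nonneg_right _ hs.le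
    have a := hUR l (by omega)
    have b := hUR (l + 1) (by omega)
    nlinarith
  have hR : 0 ≤ R ^ 2 := sq_nonneg R
  calc ∑ l ∈ range m, (U l * V (l + 1) - U (l + 1) * V l)
      ≤ ∑ l ∈ range m, R ^ 2 * (V (l + 1) / U (l + 1) - V l / U l) :=
        sum_le_sum fun l hl => key l (mem_range.1 hl)
    _ = R ^ 2 * (V m / U m - V 0 / U 0) := by
        rw [← mul_sum, sum_range_sub (fun l => V l / U l)]
    _ ≤ R ^ 2 * 2 := by
        apply mul_le_mul_of_nonneg_left _ hR
        have h0 := hU 0 (by omega)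
        have h1 := hU m le_rfl
        have a := hV 0 (by omega)
        have b := hV m le_rfl
        rw [abs_le] at a b
        have c1 : V m / U m ≤ 1 := by rw [div_le_one h1]; exact b.2
        have c2 : -1 ≤ V 0 / U 0 := by rw [le_div_iff₀ h0]; linarith [a.1]
        linarith
    _ = 2 * R ^ 2 := by ring

/-- the planar bound -/
theorem planar_bound (n : ℕ) (X Y α β : ℕ → ℝ) (c R : ℝ) (hc : 0 < c)
    (hX : ∀ i ≤ n, |X i| ≤ R) (hY : ∀ i ≤ n, |Y i| ≤ R)
    (hd : ∀ j < n, 0 < X j * Y (j + 1) - X (j + 1) * Y j)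
    (hle : ∀ j < n, ∀ i ≤ n, α j * X i + β j * Y i ≤ 1)
    (heq : ∀ j < n, ∀ i ≤ n, (α j * X i + β j * Y i = 1 ↔ i = j ∨ i = j + 1))
    (D E Δ : ℕ → ℝ) (hD : ∀ j < n, D j = c * (X j * Y (j + 1) - X (j + 1) * Y j)) (hD1 : ∀ j < n, 1 ≤ D j)
    (hE : ∀ j, j + 2 ≤ n → E (j + 1) = c * (X j * Y (j + 2) - X (j + 2) * Y j))
    (hΔ : ∀ j, j + 2 ≤ n → Δ (j + 1) = D j + D (j + 1) - E (j + 1))
    (hΔ0 : ∀ j, j + 2 ≤ n → 0 < Δ (j + 1))
    (hw : ∀ i, i + 6 ≤ n → D (i + 1) * D (i + 2) * D (i + 3) * D (i + 4) ≤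
      Δ (i + 1) * Δ (i + 2) * Δ (i + 3) * Δ (i + 4) * Δ (i + 5) * E (i + 3)) :
    (n : ℝ) ≤ 8 + 5000 * root6 (2 * c * R ^ 2) := by
  set L := (n + 1) / 5 with hL
  have hL5 : 5 * L ≤ n + 1 := Nat.mul_div_le _ _
  have hL4 : n ≤ 5 * L + 3 := by omega
  rcases Nat.eq_zero_or_pos L with hz | hpos
  · have h3 : (n : ℝ) ≤ 3 := by
      have : n ≤ 3 := by omega
      exact_mod_cast this
    have := root6_nonneg (x := 2 * c * R ^ 2) (by positivity)
    linarith
  obtain ⟨m, hm⟩ : ∃ m, L = m + 1 := ⟨L - 1, by omega⟩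
  obtain ⟨a, ha, e, f, hef, hef1, hblock⟩ := block2D n L hL5 X Y α β hd hle heq
  rw [hm] at ha hblock
  -- the functions on the block
  have hbl : ∀ l ≤ m, 0 < e * X (a + l) + f * Y (a + l) ∧
      |e * Y (a + l) - f * X (a + l)| ≤ e * X (a + l) + f * Y (a + l) := by
    intro l hl
    exact hblock (a + l) (by omega) (by omega)
  have hdet : ∀ j, (e * X j + f * Y j) * (e * Y (j + 1) - f * X (j + 1)) -
      (e * X (j + 1) + f * Y (j + 1)) * (e * Y j - f * X j) = X j * Y (j + 1) - X (j + 1) * Y j := by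
    intro j
    have : (e * X j + f * Y j) * (e * Y (j + 1) - f * X (j + 1)) -
      (e * X (j + 1) + f * Y (j + 1)) * (e * Y j - f * X j) =
      (e ^ 2 + f ^ 2) * (X j * Y (j + 1) - X (j + 1) * Y j) := by ring
    rw [this, hef, one_mul]
  have hUR : ∀ l ≤ m, e * X (a + l) + f * Y (a + l) ≤ R := by
    intro l hl
    have h1 := hX (a + l) (by omega)
    have h2 := hY (a + l) (by omega)
    calc e * X (a + l) + f * Y (a + l) ≤ |e * X (a + l)| + |f * Y (a + l)| :=
          add_le_add (le_abs_self _) (le_abs_self _)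
      _ = |e| * |X (a + l)| + |f| * |Y (a + l)| := by rw [abs_mul, abs_mul]
      _ ≤ |e| * R + |f| * R := by
          apply add_le_add
          · exact mul_le_mul_of_nonneg_left h1 (abs_nonneg _)
          · exact mul_le_mul_of_nonneg_left h2 (abs_nonneg _)
      _ = R := by rw [← add_mul, hef1, one_mul]
  have hS : ∑ l ∈ range m, D (a + l) ≤ 2 * c * R ^ 2 := by
    have h := sum_det_le m (fun l => e * X (a + l) + f * Y (a + l)) (fun l => e * Y (a + l) - f * X (a + l)) R
      (fun l hl => (hbl l hl).1) (fun l hl => (hbl l hl).2) hUR (by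
        intro l hl
        have h2 := hdet (a + l)
        have h3 := hd (a + l) (by omega)
        rw [← h2] at h3
        exact h3)
    calc ∑ l ∈ range m, D (a + l) = c * ∑ l ∈ range m, (X (a + l) * Y (a + l + 1) - X (a + l + 1) * Y (a + l)) := by
          rw [mul_sum]
          refine sum_congr rfl fun l hl => ?_
          rw [mem_range] at hl
          exact hD (a + l) (by omega)
      _ ≤ c * (2 * R ^ 2) := by
          apply mul_le_mul_of_nonneg_left _ hc.le
          refine le_trans (le_of_eq ?_) h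
          refine sum_congr rfl fun l hl => ?_
          exact (hdet (a + l)).symm
      _ = 2 * c * R ^ 2 := by ring
  have hmain := oneD_block m (fun l => e * X (a + l) + f * Y (a + l)) (fun l => D (a + l))
    (fun l => Δ (a + l) / (D (a + l - 1) * D (a + l))) (2 * c * R ^ 2)
    (fun l hl => (hbl l hl).1) (fun l hl => hD1 (a + l) (by omega)) hS (by
      intro l h1 h2
      obtain ⟨k, rfl⟩ : ∃ k, l = k + 1 := ⟨l - 1, by omega⟩
      have e1 := hD1 (a + k) (by omega)
      have e2 := hD1 (a + (k + 1)) (by omega)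
      have e3 : a + (k + 1) - 1 = a + k := by omega
      simp only [e3]
      have e4 := hΔ0 (a + k) (by omega)
      have e5 : 0 < D (a + k) * D (a + (k + 1)) := by nlinarith
      exact div_pos e4 e5) (by
      intro l hl
      have e1 := hD1 (a + l) (by omega)
      have e2 := hD1 (a + (l + 1)) (by omega)
      have e3 : a + (l + 1) - 1 = a + l := by omega
      simp only [e3]
      have e4 := hE (a + l) (by omega)
      have e5 := hΔ (a + l) (by omega)
      have e6 := hD (a + l) (by omega)
      have e7 := hD (a + l + 1) (by omega)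
      have e8 : D (a + (l + 1)) = D (a + l + 1) := rfl
      have e9 : a + (l + 2) = a + l + 2 := by omega
      have e10 : a + (l + 1) = a + l + 1 := by omega
      rw [e9, e10]
      rw [e8] at e2
      have f1 : D (a + l) ≠ 0 := by linarith
      have f2 : D (a + l + 1) ≠ 0 := by linarith
      rw [div_sub_div _ _ f1 f2, div_mul_eq_mul_div, e5]
      congr 1
      -- the linear relation
      have key : D (a + l + 1) * (e * X (a + l) + f * Y (a + l)) + D (a + l) * (e * X (a + l + 2) + f * Y (a + l + 2))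
          = E (a + l + 1) * (e * X (a + l + 1) + f * Y (a + l + 1)) := by
        rw [e4, e6, e7]
        have : a + l + 1 + 1 = a + l + 2 := rfl
        rw [this]
        ring
      linear_combination (-1) * key) (by
      intro i hi
      have w := hw (a + i) (by omega)
      have p0 := hD1 (a + i) (by omega)
      have p1 := hD1 (a + i + 1) (by omega)
      have p2 := hD1 (a + i + 2) (by omega)
      have p3 := hD1 (a + i + 3) (by omega)
      have p4 := hD1 (a + i + 4) (by omega)
      have p5 := hD1 (a + i + 5) (by omega)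
      have q1 := hΔ0 (a + i) (by omega)
      have q2 := hΔ0 (a + i + 1) (by omega)
      have q3 := hΔ0 (a + i + 2) (by omega)
      have q4 := hΔ0 (a + i + 3) (by omega)
      have q5 := hΔ0 (a + i + 4) (by omega)
      have q3' := hΔ (a + i + 2) (by omega)
      have s1 : a + (i + 1) = a + i + 1 := by omega
      have s2 : a + (i + 2) = a + i + 2 := by omega
      have s3 : a + (i + 3) = a + i + 3 := by omega
      have s4 : a + (i + 4) = a + i + 4 := by omega
      have s5 : a + (i + 5) = a + i + 5 := by omega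
      simp only [s1, s2, s3, s4, s5]
      have t1 : a + i + 1 - 1 = a + i := by omega
      have t2 : a + i + 2 - 1 = a + i + 1 := by omega
      have t3 : a + i + 3 - 1 = a + i + 2 := by omega
      have t4 : a + i + 4 - 1 = a + i + 3 := by omega
      have t5 : a + i + 5 - 1 = a + i + 4 := by omega
      simp only [t1, t2, t3, t4, t5]
      have u1 : a + i + 2 + 1 = a + i + 3 := rfl
      have u2 : a + i + 1 + 1 = a + i + 2 := rfl
      have u3 : a + i + 3 + 1 = a + i + 4 := rfl
      have u4 : a + i + 4 + 1 = a + i + 5 := rfl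
      rw [u1] at q3 q3'
      rw [u2] at q2
      rw [u3] at q4
      rw [u4] at q5
      set d0 := D (a + i)
      set d1 := D (a + i + 1)
      set d2 := D (a + i + 2)
      set d3 := D (a + i + 3)
      set d4 := D (a + i + 4)
      set d5 := D (a + i + 5)
      set z1 := Δ (a + i + 1)
      set z2 := Δ (a + i + 2)
      set z3 := Δ (a + i + 3)
      set z4 := Δ (a + i + 4)
      set z5 := Δ (a + i + 5)
      set ee := E (a + i + 3)
      have hE3 : ee ≤ d2 + d3 := by linarith
      have hz : 0 < z1 * z2 * z3 * z4 * z5 := by positivity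
      have hdd : 0 < d1 * d2 * d3 * d4 := by
        have r1 : 0 < d1 := by linarith
        have r2 : 0 < d2 := by linarith
        have r3 : 0 < d3 := by linarith
        have r4 : 0 < d4 := by linarith
        positivity
      have hfin : d1 * d2 * d3 * d4 ≤ z1 * z2 * z3 * z4 * z5 * (d2 + d3) :=
        le_trans w (mul_le_mul_of_nonneg_left hE3 hz.le)
      have r0 : d0 ≠ 0 := by linarith
      have r1 : d1 ≠ 0 := by linarith
      have r2 : d2 ≠ 0 := by linarith
      have r3 : d3 ≠ 0 := by linarith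
      have r4 : d4 ≠ 0 := by linarith
      have r5 : d5 ≠ 0 := by linarith
      have hform : z1 / (d0 * d1) * (z2 / (d1 * d2)) * (z3 / (d2 * d3)) * (z4 / (d3 * d4)) * (z5 / (d4 * d5)) *
          (d0 * d1 * d2 * d3 * d4 * d5) * (d2 + d3) = (z1 * z2 * z3 * z4 * z5 * (d2 + d3)) / (d1 * d2 * d3 * d4) := by
        field_simp
      rw [hform, le_div_iff₀ hdd, one_mul]
      exact hfin)
  have h1 : (n : ℝ) ≤ 5 * (L : ℝ) + 3 := by exact_mod_cast hL4
  rw [hm] at h1
  push_cast at h1
  linarith

end Pool.Agent.QLB
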