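import Mathlib

/-!
MP_9dcace_co, lower bound: signs of the planar determinants.
-/

set_option autoImplicit false

namespace Pool.Agent.QLB

theorem det_ne_zero {X Y α β : ℕ → ℝ} {n : ℕ} (hn : 2 ≤ n)
    (heq : ∀ j < n, ∀ i ≤ n, (α j * X i + β j * Y i = 1 ↔ i = j ∨ i = j + 1))
    {j : ℕ} (hj : j < n) : X j * Y (j + 1) - X (j + 1) * Y j ≠ 0 := by
  intro h0
  have p1 : α j * X j + β j * Y j = 1 := (heq j hj j (by omega)).2 (Or.inl rfl)
  have p2 : α j * X (j + 1) + β j * Y (j + 1) = 1 := (heq j hj (j + 1) (by omega)).2 (Or.inr rfl)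
  -- the two points are equal
  have q1 : X (j + 1) = X j := by
    linear_combination (-X (j + 1)) * p1 + X j * p2 + β j * h0 * (-1)
  have q2 : Y (j + 1) = Y j := by
    linear_combination (-Y (j + 1)) * p1 + Y j * p2 + α j * h0
  rcases Nat.lt_or_ge (j + 1) n with h | h
  · have r := (heq (j + 1) h (j + 1) (by omega)).2 (Or.inl rfl)
    rw [q1, q2] at r
    have := (heq (j + 1) h j (by omega)).1 r
    omega
  · obtain ⟨k, rfl⟩ : ∃ k, j = k + 1 := ⟨j - 1, by omega⟩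
    have r := (heq k (by omega) (k + 1) (by omega)).2 (Or.inr rfl)
    rw [← q1, ← q2] at r
    have := (heq k (by omega) (k + 1 + 1) (by omega)).1 r
    omega

theorem det_rel {X Y α β : ℕ → ℝ} {n : ℕ}
    (hle : ∀ j < n, ∀ i ≤ n, α j * X i + β j * Y i ≤ 1)
    (heq : ∀ j < n, ∀ i ≤ n, (α j * X i + β j * Y i = 1 ↔ i = j ∨ i = j + 1))
    {j : ℕ} (hj : j + 2 ≤ n) : ∃ s t : ℝ, 0 < s ∧ 0 < t ∧
      (X j * Y (j + 1) - X (j + 1) * Y j) + (X (j + 1) * Y (j + 2) - X (j + 2) * Y (j + 1)) -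
        (X j * Y (j + 2) - X (j + 2) * Y j) = (X j * Y (j + 1) - X (j + 1) * Y j) * s ∧
      (X j * Y (j + 1) - X (j + 1) * Y j) + (X (j + 1) * Y (j + 2) - X (j + 2) * Y (j + 1)) -
        (X j * Y (j + 2) - X (j + 2) * Y j) = (X (j + 1) * Y (j + 2) - X (j + 2) * Y (j + 1)) * t := by
  have p1 : α j * X j + β j * Y j = 1 := (heq j (by omega) j (by omega)).2 (Or.inl rfl)
  have p2 : α j * X (j + 1) + β j * Y (j + 1) = 1 := (heq j (by omega) (j + 1) (by omega)).2 (Or.inr rfl)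
  have p3 : α j * X (j + 2) + β j * Y (j + 2) < 1 := by
    refine lt_of_le_of_ne (hle j (by omega) (j + 2) hj) fun h => ?_
    have := (heq j (by omega) (j + 2) hj).1 h
    omega
  have r1 : α (j + 1) * X (j + 1) + β (j + 1) * Y (j + 1) = 1 :=
    (heq (j + 1) (by omega) (j + 1) (by omega)).2 (Or.inl rfl)
  have r2 : α (j + 1) * X (j + 2) + β (j + 1) * Y (j + 2) = 1 :=
    (heq (j + 1) (by omega) (j + 2) (by omega)).2 (Or.inr rfl)
  have r3 : α (j + 1) * X j + β (j + 1) * Y j < 1 := by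
    refine lt_of_le_of_ne (hle (j + 1) (by omega) j (by omega)) fun h => ?_
    have := (heq (j + 1) (by omega) j (by omega)).1 h
    omega
  refine ⟨1 - (α j * X (j + 2) + β j * Y (j + 2)), 1 - (α (j + 1) * X j + β (j + 1) * Y j),
    by linarith, by linarith, ?_, ?_⟩
  · -- apply the functional `j`
    linear_combination (X (j + 1) * Y (j + 2) - X (j + 2) * Y (j + 1)) * (-1) * p1 +
      (X j * Y (j + 2) - X (j + 2) * Y j) * p2
  · linear_combination (X j * Y (j + 2) - X (j + 2) * Y j) * r1 -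
      (X j * Y (j + 1) - X (j + 1) * Y j) * r2

theorem det_sign {X Y α β : ℕ → ℝ} {n : ℕ} (hn : 2 ≤ n)
    (hle : ∀ j < n, ∀ i ≤ n, α j * X i + β j * Y i ≤ 1)
    (heq : ∀ j < n, ∀ i ≤ n, (α j * X i + β j * Y i = 1 ↔ i = j ∨ i = j + 1)) :
    (∀ j < n, 0 < X j * Y (j + 1) - X (j + 1) * Y j) ∨ (∀ j < n, X j * Y (j + 1) - X (j + 1) * Y j < 0) := by
  have step : ∀ j, j + 2 ≤ n → (0 < X j * Y (j + 1) - X (j + 1) * Y j ↔
      0 < X (j + 1) * Y (j + 2) - X (j + 2) * Y (j + 1)) := by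
    intro j hj
    obtain ⟨s, t, hs, ht, h1, h2⟩ := det_rel hle heq hj
    have h3 : (X j * Y (j + 1) - X (j + 1) * Y j) * s = (X (j + 1) * Y (j + 2) - X (j + 2) * Y (j + 1)) * t := by
      rw [← h1, ← h2]
    constructor
    · intro h
      have : 0 < (X (j + 1) * Y (j + 2) - X (j + 2) * Y (j + 1)) * t := by rw [← h3]; exact mul_pos h hs
      exact (mul_pos_iff_of_pos_right ht).1 this
    · intro h
      have : 0 < (X j * Y (j + 1) - X (j + 1) * Y j) * s := by rw [h3]; exact mul_pos h ht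
      exact (mul_pos_iff_of_pos_right hs).1 this
  have all : ∀ j < n, (0 < X j * Y (j + 1) - X (j + 1) * Y j ↔ 0 < X 0 * Y 1 - X 1 * Y 0) := by
    intro j
    induction j with
    | zero => intro _; exact Iff.rfl
    | succ j ih =>
      intro hj
      rw [← ih (by omega)]
      exact (step j (by omega)).symm
  by_cases h : 0 < X 0 * Y 1 - X 1 * Y 0
  · left
    intro j hj
    exact (all j hj).2 h
  · right
    intro j hj
    have h1 : ¬ 0 < X j * Y (j + 1) - X (j + 1) * Y j := fun h' => h ((all j hj).1 h')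
    exact lt_of_le_of_ne (not_lt.1 h1) (det_ne_zero hn heq hj)

/-- the difference is positive if the determinants are -/
theorem delta_pos {X Y α β : ℕ → ℝ} {n : ℕ}
    (hle : ∀ j < n, ∀ i ≤ n, α j * X i + β j * Y i ≤ 1)
    (heq : ∀ j < n, ∀ i ≤ n, (α j * X i + β j * Y i = 1 ↔ i = j ∨ i = j + 1))
    (hpos : ∀ j < n, 0 < X j * Y (j + 1) - X (j + 1) * Y j) {j : ℕ} (hj : j + 2 ≤ n) :
    0 < (X j * Y (j + 1) - X (j + 1) * Y j) + (X (j + 1) * Y (j + 2) - X (j + 2) * Y (j + 1)) -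
        (X j * Y (j + 2) - X (j + 2) * Y j) := by
  obtain ⟨s, t, hs, ht, h1, h2⟩ := det_rel hle heq hj
  rw [h1]
  exact mul_pos (hpos j (by omega)) hs

/-- orientation can be normalised -/
theorem orient {X Y α β : ℕ → ℝ} {n : ℕ} (hn : 2 ≤ n) {v R : ℝ} (hv : v ≠ 0)
    (hX : ∀ i ≤ n, |X i| ≤ R) (hY : ∀ i ≤ n, |Y i| ≤ R)
    (hle : ∀ j < n, ∀ i ≤ n, α j * X i + β j * Y i ≤ 1)
    (heq : ∀ j < n, ∀ i ≤ n, (α j * X i + β j * Y i = 1 ↔ i = j ∨ i = j + 1)) :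
    ∃ θ : ℝ, (θ = 1 ∨ θ = -1) ∧ ∃ X' Y' α' β' : ℕ → ℝ, (∀ i ≤ n, |X' i| ≤ R) ∧ (∀ i ≤ n, |Y' i| ≤ R) ∧
      (∀ j < n, ∀ i ≤ n, α' j * X' i + β' j * Y' i ≤ 1) ∧
      (∀ j < n, ∀ i ≤ n, (α' j * X' i + β' j * Y' i = 1 ↔ i = j ∨ i = j + 1)) ∧
      (∀ j < n, 0 < X' j * Y' (j + 1) - X' (j + 1) * Y' j) ∧
      ∀ i i', θ * (v * (X i * Y i' - X i' * Y i)) = |v| * (X' i * Y' i' - X' i' * Y' i) := by
  rcases det_sign hn hle heq with h | h
  · rcases lt_or_gt_of_ne hv with h0 | h0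
    · exact ⟨-1, Or.inr rfl, X, Y, α, β, hX, hY, hle, heq, h, fun i i' => by rw [abs_of_neg h0]; ring⟩
    · exact ⟨1, Or.inl rfl, X, Y, α, β, hX, hY, hle, heq, h, fun i i' => by rw [abs_of_pos h0]; ring⟩
  · have A1 : ∀ j < n, ∀ i ≤ n, β j * Y i + α j * X i ≤ 1 := fun j hj i hi => by
      rw [add_comm]; exact hle j hj i hi
    have A2 : ∀ j < n, ∀ i ≤ n, (β j * Y i + α j * X i = 1 ↔ i = j ∨ i = j + 1) := fun j hj i hi => by
      rw [add_comm]; exact heq j hj i hi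
    have A3 : ∀ j < n, 0 < Y j * X (j + 1) - Y (j + 1) * X j := fun j hj => by
      have := h j hj; linarith
    rcases lt_or_gt_of_ne hv with h0 | h0
    · exact ⟨1, Or.inl rfl, Y, X, β, α, hY, hX, A1, A2, A3, fun i i' => by rw [abs_of_neg h0]; ring⟩
    · exact ⟨-1, Or.inr rfl, Y, X, β, α, hY, hX, A1, A2, A3, fun i i' => by rw [abs_of_pos h0]; ring⟩

end Pool.Agent.QLB
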