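import Mathlib

/-!
MP_9dcace_co, lower bound: cross products, determinants and the identity for five consecutive faces.
-/

set_option autoImplicit false

namespace Pool.Agent.QLB

abbrev V3 := Fin 3 → ℝ

/-- cross product -/
def cr (u v : V3) : V3 := ![u 1 * v 2 - u 2 * v 1, u 2 * v 0 - u 0 * v 2, u 0 * v 1 - u 1 * v 0]

/-- determinant of three vectors -/
def dt (u v w : V3) : ℝ :=
  u 0 * (v 1 * w 2 - v 2 * w 1) + u 1 * (v 2 * w 0 - v 0 * w 2) + u 2 * (v 0 * w 1 - v 1 * w 0)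

/-- dot product -/
def dot (u v : V3) : ℝ := ∑ i, u i * v i

theorem dot_eq (u v : V3) : dot u v = u 0 * v 0 + u 1 * v 1 + u 2 * v 2 := by
  simp [dot, Fin.sum_univ_three]

theorem dt_cr (a b c d e : V3) : dt (cr a b) (cr b c) (cr d e) = dt a b c * dt b d e := by
  simp [dt, cr]; ring

theorem dt_smul (p q r : ℝ) (x y z : V3) : dt (p • x) (q • y) (r • z) = p * q * r * dt x y z := by
  simp [dt]; ring

theorem cr_left {a b z : V3} {D D' E : ℝ} (h : D • z + D' • b = E • a) :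
    D • cr (a - z) (b - a) = (D' + D - E) • cr a b := by
  have h0 := congrFun h 0
  have h1 := congrFun h 1
  have h2 := congrFun h 2
  simp only [Pi.add_apply, Pi.smul_apply, smul_eq_mul] at h0 h1 h2
  ext i
  fin_cases i
  · simp [cr]
    linear_combination (-(b 2 - a 2)) * h1 + (b 1 - a 1) * h2
  · simp [cr]
    linear_combination (-(b 0 - a 0)) * h2 + (b 2 - a 2) * h0
  · simp [cr]
    linear_combination (-(b 1 - a 1)) * h0 + (b 0 - a 0) * h1

theorem cr_right {b c d : V3} {D D' E : ℝ} (h : D • b + D' • d = E • c) :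
    D' • cr (c - b) (d - c) = (D' + D - E) • cr b c := by
  have h0 := congrFun h 0
  have h1 := congrFun h 1
  have h2 := congrFun h 2
  simp only [Pi.add_apply, Pi.smul_apply, smul_eq_mul] at h0 h1 h2
  ext i
  fin_cases i
  · simp [cr]
    linear_combination (c 1 - b 1) * h2 - (c 2 - b 2) * h1
  · simp [cr]
    linear_combination (c 2 - b 2) * h0 - (c 0 - b 0) * h2
  · simp [cr]
    linear_combination (c 0 - b 0) * h1 - (c 1 - b 1) * h0

/-- `D a + D' c = E b + t w` and `D = θ det (b, c, w)` give the determinant of `a, b, c` -/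
theorem dt_rel {a b c w : V3} {D D' E t θ : ℝ} (h : D • a + D' • c = E • b + t • w)
    (hD : D = θ * dt b c w) (hθ : θ ^ 2 = 1) (hD0 : D ≠ 0) : dt a b c = θ * t := by
  have h0 := congrFun h 0
  have h1 := congrFun h 1
  have h2 := congrFun h 2
  simp only [Pi.add_apply, Pi.smul_apply, smul_eq_mul] at h0 h1 h2
  have key : D * dt a b c = t * dt b c w := by
    simp only [dt]
    linear_combination (b 1 * c 2 - b 2 * c 1) * h0 + (b 2 * c 0 - b 0 * c 2) * h1 + (b 0 * c 1 - b 1 * c 0) * h2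
  have h3 : dt b c w = θ * D := by rw [hD]; linear_combination (-dt b c w) * hθ
  rw [h3] at key
  have : D * dt a b c = D * (θ * t) := by rw [key]; ring
  exact mul_left_cancel₀ hD0 this

theorem dt_scale {b c d e : V3} {D D' E : ℝ} (h : D • b + D' • d = E • c) :
    D * dt b d e = E * dt c d e := by
  have h0 := congrFun h 0
  have h1 := congrFun h 1
  have h2 := congrFun h 2
  simp only [Pi.add_apply, Pi.smul_apply, smul_eq_mul] at h0 h1 h2
  simp only [dt]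
  linear_combination (d 1 * e 2 - d 2 * e 1) * h0 + (d 2 * e 0 - d 0 * e 2) * h1 + (d 0 * e 1 - d 1 * e 0) * h2

/-- the identity for five consecutive faces -/
theorem five_faces {z a b c d e f w : V3} {D0 D1 D2 D3 D4 D5 E1 E2 E3 E4 E5 θ σ : ℝ}
    (hθ : θ ^ 2 = 1) (hσ : σ ^ 2 = 1) (hD2 : D2 ≠ 0) (hD4 : D4 ≠ 0)
    (h1 : D1 • z + D0 • b = E1 • a)
    (h2 : D2 • a + D1 • c = E2 • b + (σ * (D1 + D2 - E2)) • w)
    (h3 : D3 • b + D2 • d = E3 • c)
    (h4 : D4 • c + D3 • e = E4 • d + (σ * (D3 + D4 - E4)) • w)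
    (h5 : D5 • d + D4 • f = E5 • e)
    (k2 : D2 = θ * dt b c w) (k4 : D4 = θ * dt d e w) :
    D1 * D2 * D3 * D4 * dt (cr (a - z) (b - a)) (cr (c - b) (d - c)) (cr (e - d) (f - e)) =
      (D0 + D1 - E1) * (D1 + D2 - E2) * (D2 + D3 - E3) * (D3 + D4 - E4) * (D4 + D5 - E5) * E3 := by
  have e1 : D1 • cr (a - z) (b - a) = (D0 + D1 - E1) • cr a b := cr_left h1
  have e2 : D2 • cr (c - b) (d - c) = (D2 + D3 - E3) • cr b c := cr_right h3
  have e3 : D4 • cr (e - d) (f - e) = (D4 + D5 - E5) • cr d e := cr_right h5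
  have e4 : dt a b c = θ * (σ * (D1 + D2 - E2)) := dt_rel h2 k2 hθ hD2
  have e5 : dt c d e = θ * (σ * (D3 + D4 - E4)) := dt_rel h4 k4 hθ hD4
  have e6 : D3 * dt b d e = E3 * dt c d e := dt_scale h3
  have e7 : D1 * D2 * D4 * dt (cr (a - z) (b - a)) (cr (c - b) (d - c)) (cr (e - d) (f - e)) =
      (D0 + D1 - E1) * (D2 + D3 - E3) * (D4 + D5 - E5) * (dt a b c * dt b d e) := by
    rw [← dt_smul, e1, e2, e3, dt_smul, dt_cr]
  have e8 : D3 * (dt a b c * dt b d e) = (D1 + D2 - E2) * (D3 + D4 - E4) * E3 := by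
    have : D3 * (dt a b c * dt b d e) = dt a b c * (D3 * dt b d e) := by ring
    rw [this, e6, e4, e5]
    have : θ * (σ * (D1 + D2 - E2)) * (E3 * (θ * (σ * (D3 + D4 - E4)))) =
      θ ^ 2 * σ ^ 2 * ((D1 + D2 - E2) * (D3 + D4 - E4) * E3) := by ring
    rw [this, hθ, hσ]; ring
  calc D1 * D2 * D3 * D4 * dt (cr (a - z) (b - a)) (cr (c - b) (d - c)) (cr (e - d) (f - e))
      = D3 * (D1 * D2 * D4 * dt (cr (a - z) (b - a)) (cr (c - b) (d - c)) (cr (e - d) (f - e))) := by ring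
    _ = (D0 + D1 - E1) * (D2 + D3 - E3) * (D4 + D5 - E5) * (D3 * (dt a b c * dt b d e)) := by rw [e7]; ring
    _ = _ := by rw [e8]; ring

/-- integer vectors -/
def IsInt (x : ℝ) : Prop := ∃ m : ℤ, x = m

theorem IsInt.sub {x y : ℝ} (hx : IsInt x) (hy : IsInt y) : IsInt (x - y) := by
  obtain ⟨a, rfl⟩ := hx; obtain ⟨b, rfl⟩ := hy; exact ⟨a - b, by push_cast; rfl⟩

theorem IsInt.add {x y : ℝ} (hx : IsInt x) (hy : IsInt y) : IsInt (x + y) := by
  obtain ⟨a, rfl⟩ := hx; obtain ⟨b, rfl⟩ := hy; exact ⟨a + b, by push_cast; rfl⟩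

theorem IsInt.mul {x y : ℝ} (hx : IsInt x) (hy : IsInt y) : IsInt (x * y) := by
  obtain ⟨a, rfl⟩ := hx; obtain ⟨b, rfl⟩ := hy; exact ⟨a * b, by push_cast; rfl⟩

theorem IsInt.one_le {x : ℝ} (hx : IsInt x) (h : 0 < x) : 1 ≤ x := by
  obtain ⟨a, rfl⟩ := hx
  have : (0 : ℤ) < a := by exact_mod_cast h
  exact_mod_cast this

theorem isInt_cr {u v : V3} (hu : ∀ i, IsInt (u i)) (hv : ∀ i, IsInt (v i)) : ∀ i, IsInt (cr u v i) := by
  intro i
  fin_cases i
  · exact ((hu 1).mul (hv 2)).sub ((hu 2).mul (hv 1))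
  · exact ((hu 2).mul (hv 0)).sub ((hu 0).mul (hv 2))
  · exact ((hu 0).mul (hv 1)).sub ((hu 1).mul (hv 0))

theorem isInt_dt {u v w : V3} (hu : ∀ i, IsInt (u i)) (hv : ∀ i, IsInt (v i)) (hw : ∀ i, IsInt (w i)) :
    IsInt (dt u v w) := by
  unfold dt
  exact (((hu 0).mul (((hv 1).mul (hw 2)).sub ((hv 2).mul (hw 1)))).add
    ((hu 1).mul (((hv 2).mul (hw 0)).sub ((hv 0).mul (hw 2))))).add
    ((hu 2).mul (((hv 0).mul (hw 1)).sub ((hv 1).mul (hw 0))))

/-- the product inequality of a window -/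
theorem five_faces_ineq {z a b c d e f w : V3} {D0 D1 D2 D3 D4 D5 E1 E2 E3 E4 E5 θ σ : ℝ}
    (hθ : θ ^ 2 = 1) (hσ : σ ^ 2 = 1)
    (p0 : 0 < D1) (p2 : 0 < D2) (p3 : 0 < D3) (p4 : 0 < D4)
    (t1 : 0 < D0 + D1 - E1) (t2 : 0 < D1 + D2 - E2) (t3 : 0 < D2 + D3 - E3) (t4 : 0 < D3 + D4 - E4)
    (t5 : 0 < D4 + D5 - E5) (hE : 0 < E3)
    (h1 : D1 • z + D0 • b = E1 • a)
    (h2 : D2 • a + D1 • c = E2 • b + (σ * (D1 + D2 - E2)) • w)
    (h3 : D3 • b + D2 • d = E3 • c)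
    (h4 : D4 • c + D3 • e = E4 • d + (σ * (D3 + D4 - E4)) • w)
    (h5 : D5 • d + D4 • f = E5 • e)
    (k2 : D2 = θ * dt b c w) (k4 : D4 = θ * dt d e w)
    (i1 : ∀ i, IsInt ((a - z) i)) (i2 : ∀ i, IsInt ((b - a) i)) (i3 : ∀ i, IsInt ((c - b) i))
    (i4 : ∀ i, IsInt ((d - c) i)) (i5 : ∀ i, IsInt ((e - d) i)) (i6 : ∀ i, IsInt ((f - e) i)) :
    D1 * D2 * D3 * D4 ≤
      (D0 + D1 - E1) * (D1 + D2 - E2) * (D2 + D3 - E3) * (D3 + D4 - E4) * (D4 + D5 - E5) * E3 := by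
  have key := five_faces hθ hσ p2.ne' p4.ne' h1 h2 h3 h4 h5 k2 k4
  have hint : IsInt (dt (cr (a - z) (b - a)) (cr (c - b) (d - c)) (cr (e - d) (f - e))) :=
    isInt_dt (isInt_cr i1 i2) (isInt_cr i3 i4) (isInt_cr i5 i6)
  have hpos : 0 < D1 * D2 * D3 * D4 := by positivity
  have hr : 0 < (D0 + D1 - E1) * (D1 + D2 - E2) * (D2 + D3 - E3) * (D3 + D4 - E4) * (D4 + D5 - E5) * E3 := by
    positivity
  rw [← key] at hr
  have h := hint.one_le ((mul_pos_iff_of_pos_left hpos).1 hr)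
  rw [← key]
  nlinarith

end Pool.Agent.QLB
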