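import Pool.Agent.Lib.MP_9dcace_lb.T5
import Pool.Agent.Lib.MP_9dcace_lb.P4
import Pool.Agent.Lib.MP_9dcace_lb.P3

/-!
MP_9dcace_co, lower bound: from supporting planes to the planar configuration.
-/

set_option autoImplicit false

namespace Pool.Agent.QLB

theorem dot_add (a x y : V3) : dot a (x + y) = dot a x + dot a y := by
  rw [dot_eq, dot_eq, dot_eq]; simp; ring

theorem dot_sub (a x y : V3) : dot a (x - y) = dot a x - dot a y := by
  rw [dot_eq, dot_eq, dot_eq]; simp; ring

theorem dot_smul (a x : V3) (t : ℝ) : dot a (t • x) = t * dot a x := by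
  rw [dot_eq, dot_eq]; simp; ring

theorem add_dot (a b x : V3) : dot (a + b) x = dot a x + dot b x := by
  rw [dot_eq, dot_eq, dot_eq]; simp; ring

theorem smul_dot (a x : V3) (t : ℝ) : dot (t • a) x = t * dot a x := by
  rw [dot_eq, dot_eq]; simp; ring

/-- a strip of quadrilateral faces around the two apices -/
structure Strip (M : ℕ) (A B : V3) (R : ℕ → V3) (a : ℕ → V3) (c : ℕ → ℝ) : Prop where
  hodd : ∀ j, 1 ≤ j → j < M → j % 2 = 1 → dot (a j) A = c j ∧ dot (a j) B < c j
  heven : ∀ j, 1 ≤ j → j < M → j % 2 = 0 → dot (a j) B = c j ∧ dot (a j) A < c j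
  hle : ∀ j, 1 ≤ j → j < M → ∀ i ≤ M, dot (a j) (R i) ≤ c j
  heq : ∀ j, 1 ≤ j → j < M → ∀ i ≤ M, (dot (a j) (R i) = c j ↔ i + 1 = j ∨ i = j ∨ i = j + 1)

/-- the apex of the face `j` -/
def apex (A B : V3) (j : ℕ) : V3 := if j % 2 = 1 then A else B

theorem apex_face {M : ℕ} {A B : V3} {R a : ℕ → V3} {c : ℕ → ℝ} (h : Strip M A B R a c) {j : ℕ}
    (h1 : 1 ≤ j) (h2 : j < M) : dot (a j) (apex A B j) = c j ∧ dot (a j) (apex A B (j + 1)) < c j := by
  unfold apex
  rcases Nat.mod_two_eq_zero_or_one j with hj | hj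
  · have hj' : (j + 1) % 2 = 1 := by omega
    rw [if_neg (by omega), if_pos hj']
    exact h.heven j h1 h2 hj
  · have hj' : (j + 1) % 2 = 0 := by omega
    rw [if_pos hj, if_neg (by omega)]
    exact h.hodd j h1 h2 hj

theorem apex_add_two (A B : V3) (j : ℕ) : apex A B (j + 2) = apex A B j := by
  unfold apex
  have : (j + 2) % 2 = j % 2 := by omega
  rw [this]

/-- the sign of the face -/
def sg (j : ℕ) : ℝ := if j % 2 = 1 then -1 else 1

theorem sg_sq (j : ℕ) : sg j ^ 2 = 1 := by
  unfold sg; split_ifs <;> norm_num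

theorem apex_sub (A B : V3) (j : ℕ) : apex A B (j + 1) - apex A B j = sg j • (A - B) := by
  unfold apex sg
  rcases Nat.mod_two_eq_zero_or_one j with hj | hj
  · have hj' : (j + 1) % 2 = 1 := by omega
    rw [if_neg (by omega : ¬ j % 2 = 1), if_pos hj', if_neg (by omega : ¬ j % 2 = 1)]
    simp
  · have hj' : (j + 1) % 2 = 0 := by omega
    rw [if_pos hj, if_neg (by omega : ¬ (j + 1) % 2 = 1), if_pos hj]
    ext i; simp

theorem apex_eq (A B : V3) (j : ℕ) : ∃ t : ℝ, apex A B j = B + t • (A - B) := by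
  unfold apex
  split_ifs
  · exact ⟨1, by simp⟩
  · exact ⟨0, by simp⟩

/-- the functional of an edge -/
theorem edge_fun {M : ℕ} {A B : V3} {R a : ℕ → V3} {c : ℕ → ℝ} (h : Strip M A B R a c) {j : ℕ}
    (h1 : 1 ≤ j) (h2 : j + 1 < M) : ∃ φ : V3, dot φ (A - B) = 0 ∧
      ∀ i ≤ M, dot φ (R i - B) ≤ 1 ∧ (dot φ (R i - B) = 1 ↔ i = j ∨ i = j + 1) := by
  obtain ⟨p1, p2⟩ := apex_face h h1 (by omega)
  obtain ⟨p3, p4⟩ := apex_face h (by omega : 1 ≤ j + 1) h2
  have p5 : apex A B (j + 1 + 1) = apex A B j := apex_add_two A B j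
  rw [p5] at p4
  set P := apex A B j with hP
  set Q := apex A B (j + 1) with hQ
  set s := c j - dot (a j) Q with hs
  set s' := c (j + 1) - dot (a (j + 1)) P with hs'
  have s0 : 0 < s := by linarith
  have s0' : 0 < s' := by linarith
  have hss : 0 < s * s' := mul_pos s0 s0'
  set F : V3 := s' • a j + s • a (j + 1) with hF
  have FP : dot F P = s' * c j + s * c (j + 1) - s * s' := by
    rw [hF, add_dot, smul_dot, smul_dot, p1]
    have : dot (a (j + 1)) P = c (j + 1) - s' := by rw [hs']; ring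
    rw [this]; ring
  have FQ : dot F Q = s' * c j + s * c (j + 1) - s * s' := by
    rw [hF, add_dot, smul_dot, smul_dot, p3]
    have : dot (a j) Q = c j - s := by rw [hs]; ring
    rw [this]; ring
  have hw : dot F (A - B) = 0 := by
    have e := apex_sub A B j
    have e2 : dot F (Q - P) = 0 := by rw [dot_sub, FP, FQ]; ring
    rw [e, dot_smul] at e2
    rcases mul_eq_zero.1 e2 with h3 | h3
    · exfalso
      have := sg_sq j
      rw [h3] at this
      norm_num at this
    · exact h3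
  have hB : dot F B = s' * c j + s * c (j + 1) - s * s' := by
    obtain ⟨t, ht⟩ := apex_eq A B j
    rw [← hP] at ht
    rw [← FP, ht, dot_add, dot_smul, hw]; ring
  refine ⟨(s * s')⁻¹ • F, by rw [smul_dot, hw, mul_zero], fun i hi => ?_⟩
  have e1 : dot ((s * s')⁻¹ • F) (R i - B) = 1 - (s * s')⁻¹ * (s' * (c j - dot (a j) (R i)) + s * (c (j + 1) - dot (a (j + 1)) (R i))) := by
    rw [smul_dot, dot_sub, hB, hF, add_dot, smul_dot, smul_dot]
    field_simp
    ring
  have q1 := h.hle j h1 (by omega) i hi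
  have q2 := h.hle (j + 1) (by omega) h2 i hi
  have q3 := h.heq j h1 (by omega) i hi
  have q4 := h.heq (j + 1) (by omega) h2 i hi
  have r1 : 0 ≤ s' * (c j - dot (a j) (R i)) := mul_nonneg s0'.le (by linarith)
  have r2 : 0 ≤ s * (c (j + 1) - dot (a (j + 1)) (R i)) := mul_nonneg s0.le (by linarith)
  have r3 : 0 < (s * s')⁻¹ := inv_pos.2 hss
  rw [e1]
  constructor
  · have := mul_nonneg r3.le (add_nonneg r1 r2)
    linarith
  · constructor
    · intro he
      have h5 : (s * s')⁻¹ * (s' * (c j - dot (a j) (R i)) + s * (c (j + 1) - dot (a (j + 1)) (R i))) = 0 := by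
        linarith
      have h6 : s' * (c j - dot (a j) (R i)) + s * (c (j + 1) - dot (a (j + 1)) (R i)) = 0 := by
        rcases mul_eq_zero.1 h5 with h7 | h7
        · exact absurd h7 r3.ne'
        · exact h7
      have h7 : s' * (c j - dot (a j) (R i)) = 0 := by linarith
      have h8 : s * (c (j + 1) - dot (a (j + 1)) (R i)) = 0 := by linarith
      have h9 : dot (a j) (R i) = c j := by
        rcases mul_eq_zero.1 h7 with h | h
        · exact absurd h s0'.ne'
        · linarith
      have h10 : dot (a (j + 1)) (R i) = c (j + 1) := by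
        rcases mul_eq_zero.1 h8 with h | h
        · exact absurd h s0.ne'
        · linarith
      have h11 := q3.1 h9
      have h12 := q4.1 h10
      omega
    · intro hi'
      have h9 : dot (a j) (R i) = c j := q3.2 (by omega)
      have h10 : dot (a (j + 1)) (R i) = c (j + 1) := q4.2 (by omega)
      rw [h9, h10]; ring

/-- Cramer's relation -/
theorem cramer (a b c w : V3) : dt b c w • a + dt a b w • c = dt a c w • b + dt a b c • w := by
  ext i
  fin_cases i <;> simp [dt] <;> ring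

theorem dt_shift (x y w : V3) (t : ℝ) : dt (x - t • w) (y - t • w) w = dt x y w := by
  simp [dt]; ring

/-- the relation of a face -/
theorem face_rel {M : ℕ} {A B : V3} {R a : ℕ → V3} {c : ℕ → ℝ} (h : Strip M A B R a c) {j : ℕ}
    (h2 : j + 1 < M) (θ : ℝ) :
    (θ * dt (R (j + 1) - B) (R (j + 2) - B) (A - B)) • (R j - apex A B (j + 1)) +
      (θ * dt (R j - B) (R (j + 1) - B) (A - B)) • (R (j + 2) - apex A B (j + 1)) =
      (θ * dt (R j - B) (R (j + 2) - B) (A - B)) • (R (j + 1) - apex A B (j + 1)) := by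
  obtain ⟨p1, p2⟩ := apex_face h (by omega : 1 ≤ j + 1) h2
  obtain ⟨t, ht⟩ := apex_eq A B (j + 1)
  set P := apex A B (j + 1) with hP
  have e : ∀ i, R i - P = (R i - B) - t • (A - B) := fun i => by rw [ht]; abel
  have d : ∀ i i', dt (R i - B) (R i' - B) (A - B) = dt (R i - P) (R i' - P) (A - B) := by
    intro i i'
    rw [e i, e i', dt_shift]
  have z0 : dot (a (j + 1)) (R j - P) = 0 := by
    rw [dot_sub, p1, (h.heq (j + 1) (by omega) h2 j (by omega)).2 (Or.inl rfl)]; ring
  have z1 : dot (a (j + 1)) (R (j + 1) - P) = 0 := by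
    rw [dot_sub, p1, (h.heq (j + 1) (by omega) h2 (j + 1) (by omega)).2 (Or.inr (Or.inl rfl))]; ring
  have z2 : dot (a (j + 1)) (R (j + 2) - P) = 0 := by
    rw [dot_sub, p1, (h.heq (j + 1) (by omega) h2 (j + 2) (by omega)).2 (Or.inr (Or.inr rfl))]; ring
  have hw : dot (a (j + 1)) (A - B) ≠ 0 := by
    intro h0
    have e1 := apex_sub A B (j + 1)
    have e2 : dot (a (j + 1)) (apex A B (j + 1 + 1) - apex A B (j + 1)) = 0 := by
      rw [e1, dot_smul, h0, mul_zero]
    rw [dot_sub] at e2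
    linarith
  have cr0 := cramer (R j - P) (R (j + 1) - P) (R (j + 2) - P) (A - B)
  have hz : dt (R j - P) (R (j + 1) - P) (R (j + 2) - P) = 0 := by
    have h3 := congrArg (dot (a (j + 1))) cr0
    rw [dot_add, dot_add, dot_smul, dot_smul, dot_smul, dot_smul, z0, z1, z2] at h3
    have h4 : dt (R j - P) (R (j + 1) - P) (R (j + 2) - P) * dot (a (j + 1)) (A - B) = 0 := by linarith
    rcases mul_eq_zero.1 h4 with h5 | h5
    · exact h5
    · exact absurd h5 hw
  rw [d, d, d]
  rw [hz, zero_smul, add_zero] at cr0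
  rw [mul_smul, mul_smul, mul_smul, ← smul_add, cr0]

/-- the determinant `E` is positive -/
theorem E_pos {M : ℕ} {A B : V3} {R a : ℕ → V3} {c : ℕ → ℝ} (h : Strip M A B R a c) {j : ℕ}
    (h2 : j + 3 < M) {D D' E : ℝ} (hD : 0 < D) (hD' : 0 < D') (hΔ : 0 < D + D' - E)
    (hrel : D' • (R j - apex A B (j + 1)) + D • (R (j + 2) - apex A B (j + 1)) =
      E • (R (j + 1) - apex A B (j + 1))) : 0 < E := by
  by_contra hE
  push Not at hE
  obtain ⟨p1, p2⟩ := apex_face h (by omega : 1 ≤ j + 3) h2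
  have p3 : apex A B (j + 3) = apex A B (j + 1) := apex_add_two A B (j + 1)
  rw [p3] at p1
  have h3 := congrArg (dot (a (j + 3))) hrel
  rw [dot_add, dot_smul, dot_smul, dot_smul, dot_sub, dot_sub, dot_sub, p1] at h3
  have q0 : dot (a (j + 3)) (R j) < c (j + 3) := by
    refine lt_of_le_of_ne (h.hle (j + 3) (by omega) h2 j (by omega)) fun he => ?_
    have := (h.heq (j + 3) (by omega) h2 j (by omega)).1 he
    omega
  have q1 : dot (a (j + 3)) (R (j + 1)) ≤ c (j + 3) := h.hle (j + 3) (by omega) h2 (j + 1) (by omega)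
  have q2 : dot (a (j + 3)) (R (j + 2)) = c (j + 3) :=
    (h.heq (j + 3) (by omega) h2 (j + 2) (by omega)).2 (Or.inl rfl)
  rw [q2] at h3
  have r1 : D' * (dot (a (j + 3)) (R j) - c (j + 3)) < 0 := mul_neg_of_pos_of_neg hD' (by linarith)
  have r2 : 0 ≤ E * (dot (a (j + 3)) (R (j + 1)) - c (j + 3)) := mul_nonneg_of_nonpos_of_nonpos hE (by linarith)
  linarith

end Pool.Agent.QLB
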