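import Pool.Agent.Lib.MP_9dcace_lb.T6

/-!
MP_9dcace_co, lower bound: a strip of `M` faces with integer vertices in `[0, N]` has `M` at most
of order `√N`.
-/

set_option autoImplicit false

namespace Pool.Agent.QLB

theorem proj_dot (k : Fin 3) (w φ r : V3) (hk : w k ≠ 0) (h : dot φ w = 0) :
    dot φ r = φ (k + 1) * (r (k + 1) - r k * w (k + 1) / w k) +
      φ (k + 2) * (r (k + 2) - r k * w (k + 2) / w k) := by
  rw [dot_eq] at h ⊢
  fin_cases k
  · simp at hk ⊢
    field_simp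
    linear_combination r 0 * h
  · simp at hk ⊢
    field_simp
    linear_combination r 1 * h
  · simp at hk ⊢
    field_simp
    linear_combination r 2 * h

theorem proj_dt (k : Fin 3) (w r r' : V3) (hk : w k ≠ 0) :
    dt r r' w = w k * ((r (k + 1) - r k * w (k + 1) / w k) * (r' (k + 2) - r' k * w (k + 2) / w k) -
      (r' (k + 1) - r' k * w (k + 1) / w k) * (r (k + 2) - r k * w (k + 2) / w k)) := by
  fin_cases k
  · simp [dt] at hk ⊢
    field_simp
    ring
  · simp [dt] at hk ⊢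
    field_simp
    ring
  · simp [dt] at hk ⊢
    field_simp
    ring

theorem proj_abs {r v w N : ℝ} {rk : ℝ} (hr : |r| ≤ N) (hrk : |rk| ≤ N) (hw : w ≠ 0) (hv : |v| ≤ |w|) :
    |r - rk * v / w| ≤ 2 * N := by
  have h1 : |rk * v / w| ≤ N := by
    rw [abs_div, abs_mul, div_le_iff₀ (abs_pos.2 hw)]
    have := abs_nonneg rk
    have := abs_nonneg v
    exact mul_le_mul hrk hv (abs_nonneg v) (le_trans (abs_nonneg rk) hrk)
  calc |r - rk * v / w| ≤ |r| + |rk * v / w| := abs_sub _ _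
    _ ≤ 2 * N := by linarith

theorem strip_bound {M : ℕ} (hM : 4 ≤ M) {N : ℝ} {A B : V3} {R a : ℕ → V3} {c : ℕ → ℝ}
    (h : Strip M A B R a c) (iA : ∀ i, IsInt (A i) ∧ 0 ≤ A i ∧ A i ≤ N)
    (iB : ∀ i, IsInt (B i) ∧ 0 ≤ B i ∧ B i ≤ N)
    (iR : ∀ j ≤ M, ∀ i, IsInt (R j i) ∧ 0 ≤ R j i ∧ R j i ≤ N) :
    (M : ℝ) ≤ 10 + 5000 * root6 (8 * N ^ 3) := by
  obtain ⟨n, rfl⟩ : ∃ n, M = n + 2 := ⟨M - 2, by omega⟩
  have hn : 2 ≤ n := by omega
  set w : V3 := A - B with hw
  -- the apices differ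
  have hw0 : ∃ i, w i ≠ 0 := by
    by_contra hcon
    push Not at hcon
    obtain ⟨p1, p2⟩ := h.hodd 1 le_rfl (by omega) rfl
    have : dot (a 1) A = dot (a 1) B := by
      have e : A = B := by
        ext i
        have := hcon i
        rw [hw] at this
        simp at this
        linarith
      rw [e]
    linarith
  obtain ⟨k, hk⟩ := Finite.exists_max (fun i => |w i|)
  have hk0 : w k ≠ 0 := by
    obtain ⟨i, hi⟩ := hw0
    have := hk i
    intro h0
    rw [h0, abs_zero] at this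
    exact hi (abs_eq_zero.1 (le_antisymm this (abs_nonneg _)))
  have hN : 0 ≤ N := le_trans (iA 0).2.1 (iA 0).2.2
  have hwk : |w k| ≤ N := by
    have h1 := iA k
    have h2 := iB k
    rw [hw, Pi.sub_apply, abs_le]
    constructor <;> linarith [h1.2.1, h1.2.2, h2.2.1, h2.2.2]
  -- the planar points
  set r : ℕ → V3 := fun i => R i - B with hr
  have hrN : ∀ j ≤ n + 2, ∀ i, |r j i| ≤ N := by
    intro j hj i
    have h1 := iR j hj i
    have h2 := iB i
    simp only [hr, Pi.sub_apply]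
    rw [abs_le]
    constructor <;> linarith [h1.2.1, h1.2.2, h2.2.1, h2.2.2]
  set X0 : ℕ → ℝ := fun i => r (i + 1) (k + 1) - r (i + 1) k * w (k + 1) / w k with hX0
  set Y0 : ℕ → ℝ := fun i => r (i + 1) (k + 2) - r (i + 1) k * w (k + 2) / w k with hY0
  have hfun : ∀ j, ∃ φ : V3, j < n → dot φ w = 0 ∧
      ∀ i ≤ n + 2, dot φ (r i) ≤ 1 ∧ (dot φ (r i) = 1 ↔ i = j + 1 ∨ i = j + 2) := by
    intro j
    by_cases hj : j < n
    · obtain ⟨φ, h1, h2⟩ := edge_fun h (by omega : 1 ≤ j + 1) (by omega : j + 1 + 1 < n + 2)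
      exact ⟨φ, fun _ => ⟨h1, h2⟩⟩
    · exact ⟨0, fun h' => absurd h' hj⟩
  choose φ hφ using hfun
  have hX0b : ∀ i ≤ n, |X0 i| ≤ 2 * N := fun i hi =>
    proj_abs (hrN (i + 1) (by omega) _) (hrN (i + 1) (by omega) _) hk0 (hk _)
  have hY0b : ∀ i ≤ n, |Y0 i| ≤ 2 * N := fun i hi =>
    proj_abs (hrN (i + 1) (by omega) _) (hrN (i + 1) (by omega) _) hk0 (hk _)
  have hval : ∀ j < n, ∀ i, φ j (k + 1) * X0 i + φ j (k + 2) * Y0 i = dot (φ j) (r (i + 1)) := by
    intro j hj i
    rw [proj_dot k w (φ j) (r (i + 1)) hk0 (hφ j hj).1]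
  obtain ⟨θ, hθ, X, Y, α, β, hX, hY, hle, heq, hd, hdet⟩ := orient (X := X0) (Y := Y0)
    (α := fun j => φ j (k + 1)) (β := fun j => φ j (k + 2)) hn hk0 hX0b hY0b
    (fun j hj i hi => by
      rw [hval j hj i]
      exact ((hφ j hj).2 (i + 1) (by omega)).1)
    (fun j hj i hi => by
      rw [hval j hj i, ((hφ j hj).2 (i + 1) (by omega)).2]
      omega)
  have hθ2 : θ ^ 2 = 1 := by rcases hθ with h | h <;> rw [h] <;> norm_num
  have hθi : IsInt θ := by
    rcases hθ with h | h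
    · exact ⟨1, by rw [h]; simp⟩
    · exact ⟨-1, by rw [h]; simp⟩
  have hcw : 0 < |w k| := abs_pos.2 hk0
  -- determinants
  have hdt : ∀ i i', θ * dt (r (i + 1)) (r (i' + 1)) w = |w k| * (X i * Y i' - X i' * Y i) := by
    intro i i'
    rw [proj_dt k w _ _ hk0]
    exact hdet i i'
  have hint : ∀ i i', i ≤ n + 2 → i' ≤ n + 2 → IsInt (θ * dt (r i) (r i') w) := by
    intro i i' hi hi'
    refine hθi.mul (isInt_dt ?_ ?_ ?_)
    · exact fun l => (iR i hi l).1.sub (iB l).1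
    · exact fun l => (iR i' hi' l).1.sub (iB l).1
    · exact fun l => (iA l).1.sub (iB l).1
  set D : ℕ → ℝ := fun j => θ * dt (r (j + 1)) (r (j + 2)) w with hDdef
  set E : ℕ → ℝ := fun j => θ * dt (r j) (r (j + 2)) w with hEdef
  set Δ : ℕ → ℝ := fun j => D (j - 1) + D j - E j with hΔdef
  have hD : ∀ j < n, D j = |w k| * (X j * Y (j + 1) - X (j + 1) * Y j) := fun j hj => hdt j (j + 1)
  have hE : ∀ j, j + 2 ≤ n → E (j + 1) = |w k| * (X j * Y (j + 2) - X (j + 2) * Y j) := fun j hj =>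
    hdt j (j + 2)
  have hD0 : ∀ j < n, 0 < D j := fun j hj => by rw [hD j hj]; exact mul_pos hcw (hd j hj)
  have hD1 : ∀ j < n, 1 ≤ D j := fun j hj => (hint (j + 1) (j + 2) (by omega) (by omega)).one_le (hD0 j hj)
  have hΔ : ∀ j, j + 2 ≤ n → Δ (j + 1) = D j + D (j + 1) - E (j + 1) := fun j hj => rfl
  have hΔ0 : ∀ j, j + 2 ≤ n → 0 < Δ (j + 1) := by
    intro j hj
    rw [hΔ j hj, hD j (by omega), hD (j + 1) (by omega), hE j hj]
    have h1 := delta_pos hle heq hd hj
    have : |w k| * (X j * Y (j + 1) - X (j + 1) * Y j) +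
        |w k| * (X (j + 1) * Y (j + 1 + 1) - X (j + 1 + 1) * Y (j + 1)) -
        |w k| * (X j * Y (j + 2) - X (j + 2) * Y j) =
      |w k| * ((X j * Y (j + 1) - X (j + 1) * Y j) + (X (j + 1) * Y (j + 2) - X (j + 2) * Y (j + 1)) -
        (X j * Y (j + 2) - X (j + 2) * Y j)) := by ring
    rw [this]
    exact mul_pos hcw h1
  -- the face relations
  have hface : ∀ j, j < n → D (j + 1) • (R (j + 1) - apex A B (j + 2)) + D j • (R (j + 3) - apex A B (j + 2)) =
      E (j + 1) • (R (j + 2) - apex A B (j + 2)) := by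
    intro j hj
    exact face_rel h (by omega : (j + 1) + 1 < n + 2) θ
  have hshift : ∀ i i' l, dt (r i) (r i') w = dt (R i - apex A B l) (R i' - apex A B l) w := by
    intro i i' l
    obtain ⟨t, ht⟩ := apex_eq A B l
    have e : ∀ i, R i - apex A B l = r i - t • w := fun i => by rw [ht, hr, hw]; simp only; abel
    rw [e, e, dt_shift]
  have hsubint : ∀ i, i + 1 ≤ n + 2 → ∀ l (P : V3), IsInt (((R (i + 1) - P) - (R i - P)) l) := by
    intro i hi l P
    have : ((R (i + 1) - P) - (R i - P)) l = R (i + 1) l - R i l := by simp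
    rw [this]
    exact (iR (i + 1) hi l).1.sub (iR i (by omega) l).1
  have hwin : ∀ i, i + 6 ≤ n → D (i + 1) * D (i + 2) * D (i + 3) * D (i + 4) ≤
      Δ (i + 1) * Δ (i + 2) * Δ (i + 3) * Δ (i + 4) * Δ (i + 5) * E (i + 3) := by
    intro i hi
    have hP2 : apex A B (i + 2) = apex A B (i + 4) := (apex_add_two A B (i + 2)).symm
    have hP6 : apex A B (i + 6) = apex A B (i + 4) := apex_add_two A B (i + 4)
    have hQ3 : apex A B (i + 3) = apex A B (i + 5) := (apex_add_two A B (i + 3)).symm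
    have hQ5 : apex A B (i + 5) = apex A B (i + 4) + sg (i + 4) • w := by
      rw [hw, ← apex_sub A B (i + 4)]; abel
    have f1 := hface i (by omega)
    have f2 := hface (i + 1) (by omega)
    have f3 := hface (i + 2) (by omega)
    have f4 := hface (i + 3) (by omega)
    have f5 := hface (i + 4) (by omega)
    have g1 : apex A B (i + 1 + 2) = apex A B (i + 3) := rfl
    have g2 : apex A B (i + 2 + 2) = apex A B (i + 4) := rfl
    have g3 : apex A B (i + 3 + 2) = apex A B (i + 5) := rfl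
    have g4 : apex A B (i + 4 + 2) = apex A B (i + 6) := rfl
    rw [hP2] at f1
    rw [g1, hQ3, hQ5] at f2
    rw [g2] at f3
    rw [g3, hQ5] at f4
    rw [g4, hP6] at f5
    have hE3 : 0 < E (i + 3) := by
      have hΔ3 := hΔ0 (i + 2) (by omega)
      rw [hΔ (i + 2) (by omega)] at hΔ3
      exact E_pos h (by omega : (i + 3) + 3 < n + 2) (hD0 (i + 2) (by omega)) (hD0 (i + 3) (by omega)) hΔ3 f3
    set P := apex A B (i + 4) with hP
    refine five_faces_ineq (z := R (i + 1) - P) (a := R (i + 2) - P) (b := R (i + 3) - P) (c := R (i + 4) - P)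
      (d := R (i + 5) - P) (e := R (i + 6) - P) (f := R (i + 7) - P) (w := w) (D0 := D i) (D1 := D (i + 1))
      (D2 := D (i + 2)) (D3 := D (i + 3)) (D4 := D (i + 4)) (D5 := D (i + 5)) (E1 := E (i + 1)) (E2 := E (i + 2))
      (E3 := E (i + 3)) (E4 := E (i + 4)) (E5 := E (i + 5)) hθ2 (sg_sq (i + 4))
      (hD0 _ (by omega)) (hD0 _ (by omega)) (hD0 _ (by omega)) (hD0 _ (by omega))
      (hΔ0 i (by omega)) (hΔ0 (i + 1) (by omega)) (hΔ0 (i + 2) (by omega)) (hΔ0 (i + 3) (by omega))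
      (hΔ0 (i + 4) (by omega)) hE3 f1 ?_ f3 ?_ f5 ?_ ?_
      (hsubint (i + 1) (by omega) · P) (hsubint (i + 2) (by omega) · P) (hsubint (i + 3) (by omega) · P)
      (hsubint (i + 4) (by omega) · P) (hsubint (i + 5) (by omega) · P) (hsubint (i + 6) (by omega) · P)
    · ext l
      have := congrFun f2 l
      simp only [Pi.add_apply, Pi.smul_apply, Pi.sub_apply, smul_eq_mul] at this ⊢
      linear_combination this
    · ext l
      have := congrFun f4 l
      simp only [Pi.add_apply, Pi.smul_apply, Pi.sub_apply, smul_eq_mul] at this ⊢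
      linear_combination this
    · rw [← hshift]
    · rw [← hshift]
  have hfin := planar_bound n X Y α β |w k| (2 * N) hcw hX hY hd hle heq D E Δ hD hD1 hE hΔ hΔ0 hwin
  have hS : 2 * |w k| * (2 * N) ^ 2 ≤ 8 * N ^ 3 := by
    have h1 : |w k| * N ^ 2 ≤ N * N ^ 2 := mul_le_mul_of_nonneg_right hwk (sq_nonneg N)
    nlinarith
  have hmono := root6_mono (by positivity : 0 ≤ 2 * |w k| * (2 * N) ^ 2) hS
  push_cast
  linarith

end Pool.Agent.QLB
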